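import Pool.Agent.Lib.SPY.Y5

/-! Row Y6 (helper66): there is no extremal set of forms in six variables. -/

namespace Pool.Agent.Results.MP_386e47_ag.SpecialCycles

open Finset

namespace Y6x

theorem HM.mono {n : ℕ} {X : Set (Matrix (Fin (n + 1)) (Fin (n + 1)) ℤ)} {β β' : ℝ}
    (h : HM X β) (hb : β ≤ β') : HM X β' := fun B hB ↦ by
  obtain ⟨B₁, h1, h2, x, h3, h4⟩ := h B hB
  exact ⟨B₁, h1, h2, x, h3, h4.trans hb⟩

/-- The value of a quaternary form at `(a, b, c, 0)`. -/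
theorem QS4 {D : Matrix (Fin (0 + 1 + 1 + 1 + 1)) (Fin (0 + 1 + 1 + 1 + 1)) ℤ} (hD : D.IsSymm)
    (a b c : ℤ) :
    QS D (fun i ↦ (((![a, b, c, 0] : Fin 4 → ℤ) i : ℤ) : ℝ)) =
      D 0 0 * a ^ 2 + D 1 1 * b ^ 2 + D 2 2 * c ^ 2 + 2 * D 0 1 * (a * b) +
        2 * D 0 2 * (a * c) + 2 * D 1 2 * (b * c) := by
  have h1 : D 1 0 = D 0 1 := hD.apply 0 1
  have h2 : D 2 0 = D 0 2 := hD.apply 0 2
  have h3 : D 2 1 = D 1 2 := hD.apply 1 2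
  have h4 : QS (J := Fin 4) D (fun i ↦ (((![a, b, c, 0] : Fin 4 → ℤ) i : ℤ) : ℝ)) =
      D 0 0 * a ^ 2 + D 1 1 * b ^ 2 + D 2 2 * c ^ 2 + (D 0 1 + D 1 0) * (a * b) +
        (D 0 2 + D 2 0) * (a * c) + (D 1 2 + D 2 1) * (b * c) := by
    unfold QS
    simp only [Fin.sum_univ_four, Matrix.cons_val_zero, Matrix.cons_val_one, Matrix.cons_val]
    push_cast
    ring
  rw [h1, h2, h3] at h4
  refine Eq.trans h4 ?_
  ring

theorem sum4 (a b c : ℤ) (f : Fin (0 + 1 + 1 + 1 + 1 + 1) → ℤ) :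
    ∑ i : Fin (0 + 1 + 1 + 1 + 1), (![a, b, c, 0] : Fin 4 → ℤ) i * f i.succ =
      a * f 1 + b * f 2 + c * f 3 := by
  have h : ∑ i : Fin 4, (![a, b, c, 0] : Fin 4 → ℤ) i * f i.succ =
      a * f 1 + b * f 2 + c * f 3 := by
    rw [Fin.sum_univ_four]
    have e1 : (0 : Fin 4).succ = 1 := rfl
    have e2 : (1 : Fin 4).succ = 2 := rfl
    have e3 : (2 : Fin 4).succ = 3 := rfl
    rw [e1, e2, e3]
    simp
  exact h

/-- The two cases for one vector. -/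
def Two (m m' w : ℤ) : Prop :=
  (4 * m' = 3 * m ^ 2 ∧ ∃ y : ℤ, 3 * (m' * y + w) = m' ∨ 3 * (m' * y + w) = -m') ∨
    (9 * m' = 8 * m ^ 2 ∧ ∃ y : ℤ, 2 * (m' * y + w) = m')

theorem excl {m m' : ℤ} (hm : 0 < m) (h1 : 4 * m' = 3 * m ^ 2) (h2 : 9 * m' = 8 * m ^ 2) :
    False := by
  have h3 : 0 < m ^ 2 := by positivity
  linarith

theorem par2 {m' a b : ℤ} (hm' : 0 < m') {y₀ y₁ y : ℤ} (h0 : 2 * (m' * y₀ + a) = m')
    (h1 : 2 * (m' * y₁ + b) = m') (h : 2 * (m' * y + (b - a)) = m') : False := by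
  have h2 : m' * (2 * (y - y₁ + y₀)) = m' * 1 := by linarith
  have h3 := mul_left_cancel₀ hm'.ne' h2
  omega

theorem par3 {m' a b ε : ℤ} (hm' : 0 < m') {y₀ y₁ y : ℤ} (h0 : 3 * (m' * y₀ + a) = ε)
    (h1 : 3 * (m' * y₁ + b) = ε)
    (h : 3 * (m' * y + (b - a)) = m' ∨ 3 * (m' * y + (b - a)) = -m') : False := by
  rcases h with h | h
  · have h2 : m' * (3 * (y - y₁ + y₀)) = m' * 1 := by linarith
    have h3 := mul_left_cancel₀ hm'.ne' h2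
    omega
  · have h2 : m' * (3 * (y - y₁ + y₀)) = m' * (-1) := by linarith
    have h3 := mul_left_cancel₀ hm'.ne' h2
    omega

/-- Three residues whose differences satisfy the same condition do not exist. -/
theorem three {m m' a b c : ℤ} (hm : 0 < m) (hm' : 0 < m') (ha : Two m m' a) (hb : Two m m' b)
    (hc : Two m m' c) (hab : Two m m' (b - a)) (hac : Two m m' (c - a)) (hbc : Two m m' (c - b)) :
    False := by
  rcases ha with ⟨e, y₀, ha⟩ | ⟨e, y₀, ha⟩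
  · rcases hb with ⟨-, y₁, hb⟩ | ⟨e', -⟩
    swap
    · exact excl hm e e'
    rcases hc with ⟨-, y₂, hc⟩ | ⟨e', -⟩
    swap
    · exact excl hm e e'
    rcases hab with ⟨-, y, hab⟩ | ⟨e', -⟩
    swap
    · exact excl hm e e'
    rcases hac with ⟨-, y', hac⟩ | ⟨e', -⟩
    swap
    · exact excl hm e e'
    rcases hbc with ⟨-, y'', hbc⟩ | ⟨e', -⟩
    swap
    · exact excl hm e e'
    rcases ha with ha | ha <;> rcases hb with hb | hb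
    · exact par3 hm' ha hb hab
    · rcases hc with hc | hc
      · exact par3 hm' ha hc hac
      · exact par3 hm' hb hc hbc
    · rcases hc with hc | hc
      · exact par3 hm' hb hc hbc
      · exact par3 hm' ha hc hac
    · exact par3 hm' ha hb hab
  · rcases hb with ⟨e', -⟩ | ⟨-, y₁, hb⟩
    · exact excl hm e' e
    rcases hab with ⟨e', -⟩ | ⟨-, y, hab⟩
    · exact excl hm e' e
    exact par2 hm' ha hb hab

end Y6x

theorem no6 {X : Set (Matrix (Fin (0 + 1 + 1 + 1 + 1 + 1 + 1))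
    (Fin (0 + 1 + 1 + 1 + 1 + 1 + 1)) ℤ)} (hne : X.Nonempty) (hX : Good X) {m : ℤ}
    (hmin : ∀ B ∈ X, m ≤ B 0 0) : ¬ HM X ((m : ℝ) / 3) := by
  intro hM
  obtain ⟨B₀, hB₀, hmin₀⟩ := hX.exists_min hne
  have gX' := hX.sch hmin₀
  obtain ⟨C₀, hC₀, hmin'⟩ := gX'.exists_min ⟨_, B₀, hB₀, rfl, rfl⟩
  have gX'' := gX'.sch hmin'
  have pm : (0 : ℤ) < B₀ 0 0 := hX.pos B₀ hB₀
  have pm' : (0 : ℤ) < C₀ 0 0 := gX'.pos C₀ hC₀
  have hM' := HM.sch hX pm hM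
  have hM'' := HM.sch gX' pm' hM'
  have hne'' : (schSet (schSet X (B₀ 0 0)) (C₀ 0 0)).Nonempty := ⟨_, C₀, hC₀, rfl, rfl⟩
  obtain ⟨D₀, hD₀, hmin''⟩ := gX''.exists_min hne''
  obtain ⟨D₁, hD₁, hle⟩ := lat_min_aux 3 (schSet (schSet X (B₀ 0 0)) (C₀ 0 0)) hne'' gX'' _ hM''
  have hmm : (m : ℝ) ≤ B₀ 0 0 := by exact_mod_cast hmin B₀ hB₀
  have q : (0 : ℝ) < B₀ 0 0 := by exact_mod_cast pm
  have q' : (0 : ℝ) < C₀ 0 0 := by exact_mod_cast pm'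
  have hk : kap 3 = 1 / 2 := by
    rw [show (3 : ℕ) = 1 + 2 from rfl, kap, kap]
    norm_num
  have hbeta : (C₀ 0 0 : ℝ) * ((B₀ 0 0 : ℝ) * ((m : ℝ) / 3)) ≤ (B₀ 0 0 : ℝ) ^ 2 * C₀ 0 0 / 3 := by
    have h1 : (B₀ 0 0 : ℝ) * C₀ 0 0 * m ≤ B₀ 0 0 * C₀ 0 0 * B₀ 0 0 :=
      mul_le_mul_of_nonneg_left hmm (by positivity)
    nlinarith
  have hd1 : (D₀ 0 0 : ℝ) ≤ D₁ 0 0 := by exact_mod_cast hmin'' D₁ hD₁
  have hkz : 2 / 3 * ((B₀ 0 0 : ℝ) ^ 2 * C₀ 0 0) ≤ D₀ 0 0 := by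
    obtain ⟨C, hC, hCm, rfl⟩ := hD₀
    obtain ⟨B, hB, hBm, rfl⟩ := hC
    exact hX.kz hmin₀ hmin' hB hBm hCm
  have hd : 3 * (D₀ 0 0 : ℝ) = 2 * (B₀ 0 0 : ℝ) ^ 2 * C₀ 0 0 := by
    rw [hk] at hle
    linarith
  have hMd : HM (schSet (schSet X (B₀ 0 0)) (C₀ 0 0)) ((D₀ 0 0 : ℝ) / 2) :=
    Y6x.HM.mono hM'' (hbeta.trans (by linarith))
  obtain ⟨D, hD, e00, e11, e22, e01, e02, e12⟩ := blockA3 hne'' gX'' hmin'' hMd
  have sD := gX''.symm D hD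
  obtain ⟨C, hC, hCm, rfl⟩ := hD
  obtain ⟨B, hB, hBm, rfl⟩ := hC
  have key : ∀ a b c : ℤ, ∀ j : Fin (0 + 1 + 1 + 1 + 1), (![a, b, c, 0] : Fin 4 → ℤ) j = 1 →
      a ^ 2 + b ^ 2 + c ^ 2 + a * b + a * c + b * c = 1 →
      Y6x.Two (B₀ 0 0) (C₀ 0 0) (a * sch B 0 1 + b * sch B 0 2 + c * sch B 0 3) := by
    intro a b c j hj h1
    have h2 := Y6x.QS4 sD a b c
    have f00 : ((sch (sch B)) 0 0 : ℝ) = D₀ 0 0 := by exact_mod_cast e00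
    have f11 : ((sch (sch B)) 1 1 : ℝ) = D₀ 0 0 := by exact_mod_cast e11
    have f22 : ((sch (sch B)) 2 2 : ℝ) = D₀ 0 0 := by exact_mod_cast e22
    have f01 : 2 * ((sch (sch B)) 0 1 : ℝ) = D₀ 0 0 := by exact_mod_cast e01
    have f02 : 2 * ((sch (sch B)) 0 2 : ℝ) = D₀ 0 0 := by exact_mod_cast e02
    have f12 : 2 * ((sch (sch B)) 1 2 : ℝ) = D₀ 0 0 := by exact_mod_cast e12
    have h1' : (a : ℝ) ^ 2 + (b : ℝ) ^ 2 + (c : ℝ) ^ 2 + a * b + a * c + b * c = 1 := by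
      exact_mod_cast h1
    rw [f00, f11, f22, f01, f02, f12] at h2
    have h3 : QS (sch (sch B)) (fun i ↦ (((![a, b, c, 0] : Fin 4 → ℤ) i : ℤ) : ℝ)) =
        D₀ 0 0 := by
      rw [h2]
      linear_combination (D₀ 0 0 : ℝ) * h1'
    have h4 := hX.kzu hmin₀ hmin' hB hBm hCm (u := (![a, b, c, 0] : Fin 4 → ℤ)) (j := j) hj
      (by rw [h3]; exact hd)
    have h5 := Y6x.sum4 a b c (fun i ↦ sch B 0 i)
    rcases h4 with ⟨h6, -, y, x, h7, -⟩ | ⟨h6, y, h7⟩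
    · rw [h5] at h7
      exact Or.inl ⟨h6, y, h7⟩
    · rw [h5] at h7
      exact Or.inr ⟨h6, y, h7⟩
  have k1 := key 1 0 0 0 rfl (by norm_num)
  have k2 := key 0 1 0 1 rfl (by norm_num)
  have k3 := key 0 0 1 2 rfl (by norm_num)
  have k4 := key (-1) 1 0 1 rfl (by norm_num)
  have k5 := key (-1) 0 1 2 rfl (by norm_num)
  have k6 := key 0 (-1) 1 2 rfl (by norm_num)
  refine Y6x.three pm pm' (a := sch B 0 1) (b := sch B 0 2) (c := sch B 0 3) ?_ ?_ ?_ ?_ ?_ ?_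
  · convert k1 using 1; ring
  · convert k2 using 1; ring
  · convert k3 using 1; ring
  · convert k4 using 1; ring
  · convert k5 using 1; ring
  · convert k6 using 1; ring

end Pool.Agent.Results.MP_386e47_ag.SpecialCycles
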