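import Pool.Agent.Lib.SPX.J6

/-! Row Y2: a formal Jacobi form supported on the one class `(1/2, …, 1/2)` is zero (helper21). -/

namespace Pool.Agent.Results.MP_386e47_ag.SpecialCycles

open Complex Finset MeasureTheory

set_option linter.unusedSectionVars false

namespace Y2x

variable {J : Type*} [Fintype J] [DecidableEq J]
variable {V : Type*} [NormedAddCommGroup V] [InnerProductSpace ℂ V] [CompleteSpace V]

/-- The class of `(1/2, …, 1/2)`. -/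
def Cl (S : Matrix J J ℤ) (b : J → ℤ) : Prop := ∀ j, ∃ z : ℤ, sv S b j = z + 1 / 2

lemma cls {S : Matrix J J ℤ} (hpd : ∀ x : J → ℝ, x ≠ 0 → 0 < QS S x) {b b₀ : J → ℤ}
    (hb : Cl S b) (hb₀ : Cl S b₀) : ∃ l : J → ℤ, b = b₀ + S.mulVec l := by
  choose z hz using hb
  choose z₀ hz₀ using hb₀
  refine ⟨fun j ↦ z j - z₀ j, ?_⟩
  funext j
  have h1 := J1.mul_sv hpd b j
  have h2 := J1.mul_sv hpd b₀ j
  have h3 : (b j : ℝ) = b₀ j + ∑ l, (S j l : ℝ) * ((z l - z₀ l : ℤ) : ℝ) := by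
    rw [← h1, ← h2, ← Finset.sum_add_distrib]
    refine Finset.sum_congr rfl fun l _ ↦ ?_
    rw [hz, hz₀]
    push_cast
    ring
  have h4 : b j = b₀ j + ∑ l, S j l * (z l - z₀ l) := by exact_mod_cast h3
  rw [h4]
  rfl

lemma hb_off {N : ℕ} {S : Matrix J J ℤ} {c : ℤ → (J → ℤ) → V}
    (hcl : ∀ (n : ℤ) (b : J → ℤ), c n b ≠ 0 → Cl S b) {b : J → ℤ} (hb' : ¬ Cl S b) (τ : ℂ) :
    hb N S c b τ = 0 := by
  unfold hb
  have h1 : ∀ n : ℤ, c n b = 0 := by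
    intro n
    by_contra hn
    exact hb' (hcl n b hn)
  simp_rw [h1, smul_zero]
  exact tsum_zero

/-- The invariance under the translation by `(1/2, …, 1/2)`. -/
lemma jac_half {N : ℕ} (hN : 0 < N) {S : Matrix J J ℤ}
    (hpd : ∀ x : J → ℝ, x ≠ 0 → 0 < QS S x) {c : ℤ → (J → ℤ) → V}
    (hint : ∀ l : J → ℤ, ∃ z : ℤ, ∑ j, S.mulVec l j = N * z)
    (hcl : ∀ (n : ℤ) (b : J → ℤ), c n b ≠ 0 → Cl S b) {b₀ : J → ℤ} (hb₀ : Cl S b₀)
    (τ : ℂ) (z : J → ℂ) :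
    ‖jac N c τ (fun j ↦ z j + 1 / 2)‖ = ‖jac N c τ z‖ := by
  have hNc : (N : ℂ) ≠ 0 := by exact_mod_cast hN.ne'
  have h1 : jac N c τ (fun j ↦ z j + 1 / 2) = e (((∑ j, b₀ j : ℤ) : ℂ) / N) • jac N c τ z := by
    unfold jac
    rw [← tsum_const_smul'']
    refine tsum_congr fun p ↦ ?_
    by_cases hc : c p.1 p.2 = 0
    · rw [hc, smul_zero, smul_zero, smul_zero]
    obtain ⟨l, hl⟩ := cls hpd (hcl _ _ hc) hb₀
    obtain ⟨w, hw⟩ := hint l
    have h2 : ((∑ j, p.2 j : ℤ) : ℂ) = ((∑ j, b₀ j : ℤ) : ℂ) + N * w := by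
      have h3 : ∑ j, p.2 j = ∑ j, b₀ j + N * w := by
        rw [← hw, ← Finset.sum_add_distrib, hl]
        rfl
      rw [h3]
      push_cast
      ring
    rw [smul_smul, ← e_add]
    congr 1
    have h4 : ((p.1 : ℂ) * τ + 2 * ∑ j, (p.2 j : ℂ) * (z j + 1 / 2)) / N =
        (((∑ j, b₀ j : ℤ) : ℂ) / N + (p.1 * τ + 2 * ∑ j, (p.2 j : ℂ) * z j) / N) + (w : ℤ) := by
      have h5 : ∑ j, (p.2 j : ℂ) * (z j + 1 / 2) = ∑ j, (p.2 j : ℂ) * z j +
          ((∑ j, p.2 j : ℤ) : ℂ) / 2 := by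
        push_cast
        rw [Finset.sum_div, ← Finset.sum_add_distrib]
        refine Finset.sum_congr rfl fun j _ ↦ ?_
        ring
      rw [h5, h2]
      field_simp
      ring
    rw [h4, e_add _ ((w : ℤ) : ℂ), e_int, mul_one]
  have h6 : ‖e (((∑ j, b₀ j : ℤ) : ℂ) / N)‖ = 1 := by
    have h7 : ((∑ j, b₀ j : ℤ) : ℂ) / N = ((((∑ j, b₀ j : ℤ) : ℝ) / N : ℝ) : ℂ) := by
      push_cast
      rfl
    rw [h7, J5x.norm_re]
  rw [h1, norm_smul, h6, one_mul]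

lemma FF_half {N : ℕ} (hN : 0 < N) {k : ℝ} {S : Matrix J J ℤ}
    (hpd : ∀ x : J → ℝ, x ≠ 0 → 0 < QS S x) {c : ℤ → (J → ℤ) → V} (h : IsJac N k S c)
    (hint : ∀ l : J → ℤ, ∃ z : ℤ, ∑ j, S.mulVec l j = N * z)
    (hcl : ∀ (n : ℤ) (b : J → ℤ), c n b ≠ 0 → Cl S b) {b₀ : J → ℤ} (hb₀ : Cl S b₀)
    {τ : ℂ} (hτ : 0 < τ.im) (y : J → ℝ) :
    J4x.FF N S c τ (fun _ ↦ 1 / 2) y = J4x.FF N S c τ 0 y := by
  have h0 : τ ≠ 0 := by
    rintro rfl
    simp at hτ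
  have hn : 0 < ‖τ‖ := norm_pos_iff.2 h0
  have h1 := J4x.integrand hN h hτ (-y) (fun _ ↦ 1 / 2)
  have h2 := J4x.integrand hN h hτ (-y) 0
  rw [neg_neg] at h1 h2
  have h3 : J4x.FF N S c (-1 / τ) (-y) (fun _ ↦ 1 / 2) = J4x.FF N S c (-1 / τ) (-y) 0 := by
    unfold J4x.FF
    have h4 := jac_half hN hpd hint hcl hb₀ (-1 / τ) (fun j ↦ (-1 / τ) * ((-y) j : ℂ))
    have h5 : (fun j : J ↦ (-1 / τ) * (((-y) j : ℝ) : ℂ) + (((fun _ ↦ 1 / 2 : J → ℝ) j : ℝ) : ℂ)) =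
        fun j ↦ (-1 / τ) * ((-y) j : ℂ) + 1 / 2 := by
      funext j
      push_cast
      rfl
    have h6 : (fun j : J ↦ (-1 / τ) * (((-y) j : ℝ) : ℂ) + (((0 : J → ℝ) j : ℝ) : ℂ)) =
        fun j ↦ (-1 / τ) * ((-y) j : ℂ) := by
      funext j
      simp
    rw [h5, h6, h4]
  rw [h1, h2] at h3
  refine (ENNReal.mul_right_inj ?_ ENNReal.ofReal_ne_top).1 h3
  rw [Ne, ENNReal.ofReal_eq_zero, not_le]
  exact Real.rpow_pos_of_pos hn _

end Y2x

section Jacobi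

variable {J : Type*} [Fintype J] [DecidableEq J]
variable {V : Type*} [NormedAddCommGroup V] [InnerProductSpace ℂ V] [CompleteSpace V]

open Y2x in
/-- Row Y2. -/
theorem single [Nonempty J] {N : ℕ} (hN : 0 < N) {k : ℝ} {S : Matrix J J ℤ} (hS : S.IsSymm)
    (hpd : ∀ x : J → ℝ, x ≠ 0 → 0 < QS S x) {c : ℤ → (J → ℤ) → V} (h : IsJac N k S c)
    (hint : ∀ l : J → ℤ, ∃ z : ℤ, ∑ j, S.mulVec l j = N * z)
    (hcl : ∀ (n : ℤ) (b : J → ℤ), c n b ≠ 0 → ∀ j, ∃ z : ℤ, sv S b j = z + 1 / 2)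
    {b₀ : J → ℤ} (hb₀ : ∀ τ : ℂ, 0 < τ.im → hb N S c b₀ τ ≠ 0) : False := by
  classical
  have hN' : (0 : ℝ) < N := by exact_mod_cast hN
  have hpi := Real.pi_pos
  have hcl' : ∀ (n : ℤ) (b : J → ℤ), c n b ≠ 0 → Cl S b := hcl
  have hb0 : Cl S b₀ := by
    by_contra hne
    exact hb₀ I (by simp) (hb_off hcl' hne I)
  -- the two series
  obtain ⟨G, hG⟩ : ∃ G : ℝ → (J → ℤ) → ENNReal, G = fun t b ↦ if Cl S b then
      ENNReal.ofReal (Real.exp (-(4 * Real.pi * t * QS S (sv S b) / N))) else 0 := ⟨_, rfl⟩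
  have hτ : ∀ t : ℝ, 0 < t → 0 < ((t : ℂ) * I).im ∧ ((t : ℂ) * I).im = t := by
    intro t ht
    have : ((t : ℂ) * I).im = t := by simp
    exact ⟨by rw [this]; exact ht, this⟩
  have hright : ∀ t : ℝ, 0 < t → ∫⁻ β in cube J, J4x.FF N S c ((t : ℂ) * I) 0 β =
      ENNReal.ofReal (‖hb N S c b₀ ((t : ℂ) * I)‖ ^ 2) * ∑' b, G t b := by
    intro t ht
    obtain ⟨h1, h2⟩ := hτ t ht
    have h3 := inner_int hN hS hpd h h1 0
    have h4 : ∫⁻ β in cube J, J4x.FF N S c ((t : ℂ) * I) 0 β = ∑' b : J → ℤ, ENNReal.ofReal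
        (‖hb N S c b ((t : ℂ) * I)‖ ^ 2 * Real.exp (-(4 * Real.pi * ((t : ℂ) * I).im *
          QS S (0 + sv S b) / N))) := h3
    rw [h4, ← ENNReal.tsum_mul_left]
    refine tsum_congr fun b ↦ ?_
    rw [h2, zero_add, hG]
    by_cases hb' : Cl S b
    · simp only [if_pos hb']
      obtain ⟨l, hl⟩ := cls hpd hb' hb0
      have h5 := hb_quasi hN hS hpd h b₀ l h1
      rw [← hl] at h5
      rw [h5, ENNReal.ofReal_mul (by positivity)]
    · simp only [if_neg hb']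
      rw [hb_off hcl' hb', mul_zero]
      simp
  have hleft : ∀ t : ℝ, 0 < t → ENNReal.ofReal (‖hb N S c b₀ ((t : ℂ) * I)‖ ^ 2) ≤
      ∫⁻ β in cube J, J4x.FF N S c ((t : ℂ) * I) 0 β := by
    intro t ht
    obtain ⟨h1, h2⟩ := hτ t ht
    have h3 := inner_int hN hS hpd h h1 (fun _ ↦ 1 / 2)
    have h4 : ∫⁻ β in cube J, J4x.FF N S c ((t : ℂ) * I) (fun _ ↦ 1 / 2) β =
        ∑' b : J → ℤ, ENNReal.ofReal
        (‖hb N S c b ((t : ℂ) * I)‖ ^ 2 * Real.exp (-(4 * Real.pi * ((t : ℂ) * I).im *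
          QS S ((fun _ ↦ 1 / 2) + sv S b) / N))) := h3
    have h5 : ∫⁻ β in cube J, J4x.FF N S c ((t : ℂ) * I) 0 β =
        ∫⁻ β in cube J, J4x.FF N S c ((t : ℂ) * I) (fun _ ↦ 1 / 2) β := by
      refine lintegral_congr fun β ↦ ?_
      exact (FF_half hN hpd h hint hcl' hb0 h1 β).symm
    rw [h5, h4]
    choose z₀ hz₀ using hb0
    have h6 : sv S (b₀ + S.mulVec (fun j ↦ -z₀ j - 1)) = fun _ ↦ (-(1 / 2) : ℝ) := by
      rw [J2_sv_add hpd]
      funext j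
      rw [Pi.add_apply, hz₀]
      push_cast
      ring
    refine le_trans (le_of_eq ?_) (ENNReal.le_tsum (b₀ + S.mulVec (fun j ↦ -z₀ j - 1)))
    rw [hb_quasi hN hS hpd h b₀ _ h1, h6]
    have h7 : ((fun _ ↦ 1 / 2 : J → ℝ) + fun _ ↦ (-(1 / 2) : ℝ)) = 0 := by
      funext j
      simp
    rw [h7]
    have h8 : QS S (0 : J → ℝ) = 0 := by simp [QS]
    rw [h8]
    simp
  have hone : ∀ t : ℝ, 0 < t → 1 ≤ ∑' b, G t b := by
    intro t ht
    have h1 := (hleft t ht).trans (le_of_eq (hright t ht))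
    have h2 : ENNReal.ofReal (‖hb N S c b₀ ((t : ℂ) * I)‖ ^ 2) ≠ 0 := by
      rw [Ne, ENNReal.ofReal_eq_zero, not_le]
      have := norm_pos_iff.2 (hb₀ _ (hτ t ht).1)
      positivity
    by_contra hlt
    rw [not_le] at hlt
    have h3 := (ENNReal.mul_lt_mul_iff_right h2 ENNReal.ofReal_ne_top).2 hlt
    rw [mul_one] at h3
    exact absurd h1 (not_le.2 h3)
  -- finiteness at `t = 1`
  have hfin : ∑' b, G 1 b ≠ ⊤ := by
    have h1 : ∫⁻ β in cube J, J4x.FF N S c (((1 : ℝ) : ℂ) * I) 0 β ≠ ⊤ := by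
      obtain ⟨hi1, hi2⟩ := hτ 1 one_pos
      have hs := h.summ (2 * Real.pi * (((1 : ℝ) : ℂ) * I).im / N) (4 * Real.pi * 0 / N)
        (by positivity)
      obtain ⟨D, hD⟩ : ∃ D : ℝ, D = ∑' p : ℤ × (J → ℤ),
        Real.exp (-((2 * Real.pi * (((1 : ℝ) : ℂ) * I).im / N) * p.1) +
          (4 * Real.pi * 0 / N) * ∑ j, |(p.2 j : ℝ)|) * ‖c p.1 p.2‖ := ⟨_, rfl⟩
      have h2 : ∀ β : J → ℝ, J4x.FF N S c (((1 : ℝ) : ℂ) * I) 0 β ≤ ENNReal.ofReal (D ^ 2) := by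
        intro β
        unfold J4x.FF
        refine ENNReal.ofReal_le_ofReal ?_
        have h3 : ‖jac N c (((1 : ℝ) : ℂ) * I)
            (fun j ↦ ((1 : ℝ) : ℂ) * I * (((0 : J → ℝ) j : ℝ) : ℂ) + (β j : ℂ))‖ ≤ D := by
          unfold jac
          rw [hD]
          refine tsum_of_norm_bounded hs.hasSum fun p ↦ ?_
          refine J4x.term_norm hN c (fun j ↦ ?_) p
          simp
        have h8 : QS S (0 : J → ℝ) = 0 := by simp [QS]
        rw [h8, mul_zero, zero_div, neg_zero, Real.exp_zero, mul_one]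
        exact pow_le_pow_left₀ (norm_nonneg _) h3 2
      refine ne_top_of_le_ne_top ?_ (lintegral_mono h2)
      rw [lintegral_const, Measure.restrict_apply_univ, J1.volume_cube, mul_one]
      exact ENNReal.ofReal_ne_top
    rw [hright 1 one_pos] at h1
    intro htop
    rw [htop] at h1
    refine h1 (ENNReal.mul_top ?_)
    rw [Ne, ENNReal.ofReal_eq_zero, not_le]
    have := norm_pos_iff.2 (hb₀ _ (hτ 1 one_pos).1)
    positivity
  -- the decay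
  obtain ⟨c₀, hc₀, hlow⟩ := J3x.exists_lower S hpd
  obtain ⟨d, hd⟩ : ∃ d : ℝ, d = c₀ * (1 / 4) / N := ⟨_, rfl⟩
  have hd0 : 0 < d := by rw [hd]; positivity
  have hdec : ∀ t : ℝ, 1 ≤ t → ∑' b, G t b ≤
      ENNReal.ofReal (Real.exp (-(4 * Real.pi * (t - 1) * d))) * ∑' b, G 1 b := by
    intro t ht
    rw [← ENNReal.tsum_mul_left]
    refine ENNReal.tsum_le_tsum fun b ↦ ?_
    rw [hG]
    by_cases hb' : Cl S b
    · simp only [if_pos hb']
      rw [← ENNReal.ofReal_mul (by positivity), ← Real.exp_add]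
      refine ENNReal.ofReal_le_ofReal (Real.exp_le_exp.2 ?_)
      obtain ⟨j₀⟩ := ‹Nonempty J›
      obtain ⟨z, hz⟩ := hb' j₀
      have h1 : (1 / 4 : ℝ) ≤ ∑ j, sv S b j ^ 2 := by
        refine le_trans ?_ (Finset.single_le_sum (f := fun j ↦ sv S b j ^ 2)
          (fun _ _ ↦ sq_nonneg _) (Finset.mem_univ j₀))
        show (1 / 4 : ℝ) ≤ sv S b j₀ ^ 2
        rw [hz]
        have h2 : (0 : ℝ) ≤ (z : ℝ) * (z + 1) := by
          have : 0 ≤ z * (z + 1) := by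
            rcases le_or_gt 0 z with h | h
            · positivity
            · nlinarith
          exact_mod_cast this
        nlinarith
      have h3 : d * N ≤ QS S (sv S b) := by
        have h4 := hlow (sv S b)
        have h5 : d * N = c₀ * (1 / 4) := by
          rw [hd]
          field_simp
        rw [h5]
        refine le_trans ?_ h4
        gcongr
      have h6 : d ≤ QS S (sv S b) / N := by
        rw [le_div_iff₀ hN']
        exact h3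
      have h7 : 4 * Real.pi * (t - 1) * d ≤ 4 * Real.pi * (t - 1) * (QS S (sv S b) / N) := by
        have : 0 ≤ t - 1 := by linarith
        gcongr
      have h8 : -(4 * Real.pi * t * QS S (sv S b) / N) =
          -(4 * Real.pi * (t - 1) * (QS S (sv S b) / N)) +
            -(4 * Real.pi * 1 * QS S (sv S b) / N) := by ring
      rw [h8]
      linarith
    · simp only [if_neg hb']
      exact zero_le
  obtain ⟨B, hB⟩ : ∃ B : ℝ, B = (∑' b, G 1 b).toReal := ⟨_, rfl⟩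
  have hB1 : 1 ≤ B := by
    rw [hB, ← ENNReal.toReal_one]
    exact ENNReal.toReal_mono hfin (hone 1 one_pos)
  have hlim : ∃ t : ℝ, 1 ≤ t ∧ Real.exp (-(4 * Real.pi * (t - 1) * d)) * B < 1 := by
    refine ⟨1 + B / (4 * Real.pi * d), ?_, ?_⟩
    · have : 0 ≤ B / (4 * Real.pi * d) := by positivity
      linarith
    · have h1 : 4 * Real.pi * (1 + B / (4 * Real.pi * d) - 1) * d = B := by
        field_simp
        ring
      rw [h1, Real.exp_neg, inv_mul_lt_iff₀ (Real.exp_pos _), mul_one]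
      have := Real.add_one_lt_exp (by linarith : B ≠ 0)
      linarith
  obtain ⟨t, ht, hlt⟩ := hlim
  have h1 := (hone t (by linarith)).trans (hdec t ht)
  have h2 : ENNReal.ofReal (Real.exp (-(4 * Real.pi * (t - 1) * d))) * ∑' b, G 1 b =
      ENNReal.ofReal (Real.exp (-(4 * Real.pi * (t - 1) * d)) * B) := by
    rw [ENNReal.ofReal_mul (by positivity), hB, ENNReal.ofReal_toReal hfin]
  rw [h2, ENNReal.one_le_ofReal] at h1
  linarith

end Jacobi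

end Pool.Agent.Results.MP_386e47_ag.SpecialCycles
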