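import Pool.Agent.Lib.SPX.Defs

/-! Row Y7: the covering radius and the deep holes of the root lattice `A_3`. (helper44) -/

namespace Pool.Agent.Results.MP_386e47_ag.SpecialCycles

open Finset

namespace Y7x

/-- the other choice of a nearest integer -/
theorem alt (u : ℝ) : ∃ s : ℤ, Odd s ∧ (u - (round u + s : ℤ)) ^ 2 = (1 - |u - round u|) ^ 2 := by
  rcases le_total 0 (u - round u) with h | h
  · refine ⟨1, by decide, ?_⟩
    rw [abs_of_nonneg h]
    push_cast
    ring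
  · refine ⟨-1, by decide, ?_⟩
    rw [abs_of_nonpos h]
    push_cast
    ring

theorem core (u v w : ℝ) :
    (∃ a b c : ℤ, Even (a + b + c) ∧ (u - a) ^ 2 + (v - b) ^ 2 + (w - c) ^ 2 < 1) ∨
    ∃ a b c : ℤ, Odd (a + b + c) ∧ u = a ∧ v = b ∧ w = c := by
  by_contra hn
  rw [not_or] at hn
  obtain ⟨h1, h2⟩ := hn
  push Not at h1 h2
  have hu := abs_sub_round u
  have hv := abs_sub_round v
  have hw := abs_sub_round w
  have hu0 := abs_nonneg (u - round u)
  have hv0 := abs_nonneg (v - round v)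
  have hw0 := abs_nonneg (w - round w)
  have hu2 : (u - round u) ^ 2 = |u - round u| ^ 2 := (sq_abs _).symm
  have hv2 : (v - round v) ^ 2 = |v - round v| ^ 2 := (sq_abs _).symm
  have hw2 : (w - round w) ^ 2 = |w - round w| ^ 2 := (sq_abs _).symm
  rcases Int.even_or_odd (round u + round v + round w) with he | ho
  · have := h1 _ _ _ he
    nlinarith
  · obtain ⟨s1, hs1, e1⟩ := alt u
    obtain ⟨s2, hs2, e2⟩ := alt v
    obtain ⟨s3, hs3, e3⟩ := alt w
    have f1 := h1 (round u + s1) (round v) (round w) (by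
      obtain ⟨k1, hk1⟩ := ho
      obtain ⟨k2, hk2⟩ := hs1
      exact ⟨k1 + k2 + 1, by omega⟩)
    have f2 := h1 (round u) (round v + s2) (round w) (by
      obtain ⟨k1, hk1⟩ := ho
      obtain ⟨k2, hk2⟩ := hs2
      exact ⟨k1 + k2 + 1, by omega⟩)
    have f3 := h1 (round u) (round v) (round w + s3) (by
      obtain ⟨k1, hk1⟩ := ho
      obtain ⟨k2, hk2⟩ := hs3
      exact ⟨k1 + k2 + 1, by omega⟩)
    rw [e1, hv2, hw2] at f1
    rw [hu2, e2, hw2] at f2
    rw [hu2, hv2, e3] at f3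
    set a := |u - round u| with ha
    set b := |v - round v| with hb
    set c := |w - round w| with hc
    have ga : a ^ 2 ≤ a / 2 := by nlinarith
    have gb : b ^ 2 ≤ b / 2 := by nlinarith
    have gc : c ^ 2 ≤ c / 2 := by nlinarith
    have hs : a + b + c ≤ 0 := by nlinarith
    have za : a = 0 := by linarith
    have zb : b = 0 := by linarith
    have zc : c = 0 := by linarith
    refine h2 _ _ _ ho ?_ ?_ ?_
    · exact sub_eq_zero.1 (abs_eq_zero.1 za)
    · exact sub_eq_zero.1 (abs_eq_zero.1 zb)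
    · exact sub_eq_zero.1 (abs_eq_zero.1 zc)

end Y7x

theorem d3 {J : Type*} [Fintype J] [DecidableEq J] (hJ : Fintype.card J = 3)
    {S : Matrix J J ℤ} {m : ℤ} (hm : 0 < m) (hdiag : ∀ p, S p p = m)
    (hoff : ∀ p q, p ≠ q → 2 * S p q = m) (x : J → ℝ) :
    (∃ l : J → ℤ, QS S (fun j ↦ x j + l j) ≤ (m : ℝ) / 2) ∧
    ((∀ l : J → ℤ, (m : ℝ) / 2 ≤ QS S (fun j ↦ x j + l j)) → ∀ j, ∃ z : ℤ, x j = z + 1 / 2) := by
  have hm' : (0 : ℝ) < m := by exact_mod_cast hm
  obtain ⟨e⟩ : Nonempty (Fin 3 ≃ J) := ⟨(Fintype.equivFinOfCardEq hJ).symm⟩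
  have hQ : ∀ y : J → ℝ, QS S y = (m : ℝ) / 2 *
      ((y (e 0) + y (e 1)) ^ 2 + (y (e 0) + y (e 2)) ^ 2 + (y (e 1) + y (e 2)) ^ 2) := by
    intro y
    have hd : ∀ i, (S (e i) (e i) : ℝ) = m := fun i => by rw [hdiag]
    have ho : ∀ i j, i ≠ j → (S (e i) (e j) : ℝ) = m / 2 := fun i j hij => by
      have := hoff (e i) (e j) (e.injective.ne hij)
      have h' : (2 : ℝ) * (S (e i) (e j) : ℝ) = m := by exact_mod_cast this
      linarith
    unfold QS
    rw [← e.sum_comp]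
    simp_rw [← e.sum_comp (fun l => (S _ l : ℝ) * _ * y l)]
    simp only [Fin.sum_univ_three]
    rw [hd 0, hd 1, hd 2, ho 0 1 (by decide), ho 0 2 (by decide), ho 1 0 (by decide),
      ho 1 2 (by decide), ho 2 0 (by decide), ho 2 1 (by decide)]
    ring
  -- integral solutions
  have hsol : ∀ a b c : ℤ, Even (a + b + c) → ∃ l : J → ℤ,
      QS S (fun j ↦ x j + l j) = (m : ℝ) / 2 * ((x (e 0) + x (e 1) - a) ^ 2 +
        (x (e 0) + x (e 2) - b) ^ 2 + (x (e 1) + x (e 2) - c) ^ 2) := by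
    rintro a b c ⟨t, ht⟩
    refine ⟨fun j => ![c - t, b - t, a - t] (e.symm j), ?_⟩
    rw [hQ]
    have ht' : (a : ℝ) + b + c = t + t := by exact_mod_cast ht
    have hc : (c : ℝ) = t + t - a - b := by linarith
    simp only [Equiv.symm_apply_apply]
    simp only [Matrix.cons_val_zero, Matrix.cons_val_one, Matrix.cons_val]
    push_cast
    rw [hc]
    ring
  rcases Y7x.core (x (e 0) + x (e 1)) (x (e 0) + x (e 2)) (x (e 1) + x (e 2)) with
    ⟨a, b, c, he, hlt⟩ | ⟨a, b, c, ho, h1, h2, h3⟩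
  · obtain ⟨l, hl⟩ := hsol a b c he
    have hlt' : QS S (fun j ↦ x j + l j) < (m : ℝ) / 2 := by
      rw [hl]
      nlinarith
    exact ⟨⟨l, hlt'.le⟩, fun h => absurd (h l) (not_le.2 hlt')⟩
  · refine ⟨?_, fun _ => ?_⟩
    · obtain ⟨l, hl⟩ := hsol (a + 1) b c (by
        obtain ⟨k1, hk1⟩ := ho
        exact ⟨k1 + 1, by omega⟩)
      refine ⟨l, ?_⟩
      rw [hl, h1, h2, h3]
      push_cast
      nlinarith
    · obtain ⟨t, ht⟩ := ho
      have ht' : (a : ℝ) + b + c = 2 * t + 1 := by exact_mod_cast ht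
      have k0 : x (e 0) = ((t - c : ℤ) : ℝ) + 1 / 2 := by push_cast; linarith
      have k1 : x (e 1) = ((t - b : ℤ) : ℝ) + 1 / 2 := by push_cast; linarith
      have k2 : x (e 2) = ((t - a : ℤ) : ℝ) + 1 / 2 := by push_cast; linarith
      intro j
      obtain ⟨i, rfl⟩ := e.surjective j
      fin_cases i
      · exact ⟨_, k0⟩
      · exact ⟨_, k1⟩
      · exact ⟨_, k2⟩

end Pool.Agent.Results.MP_386e47_ag.SpecialCycles
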