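import Pool.Agent.Lib.SPX.J6

/-! Row YP: periodicity of the theta coefficients (helper21). -/

namespace Pool.Agent.Results.MP_386e47_ag.SpecialCycles

open Complex Finset MeasureTheory

namespace YPx

variable {J : Type*} [Fintype J] [DecidableEq J]

/-- `det S * S⁻¹[b]` is an integer. -/
lemma det_sq {S : Matrix J J ℤ} (hpd : ∀ x : J → ℝ, x ≠ 0 → 0 < QS S x) (b : J → ℤ) :
    ∃ z : ℤ, (S.det : ℝ) * sq S b = z := by
  have hd := J1.det_ne hpd
  have hdet : (S.map (fun x : ℤ ↦ (x : ℝ))).det = (S.det : ℝ) := by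
    have := RingHom.map_det (Int.castRingHom ℝ) S
    simpa using this.symm
  have hadj : (S.map (fun x : ℤ ↦ (x : ℝ))).adjugate = S.adjugate.map (fun x : ℤ ↦ (x : ℝ)) := by
    have := RingHom.map_adjugate (Int.castRingHom ℝ) S
    exact this.symm
  have h0 : (S.det : ℝ) ≠ 0 := by
    rw [← hdet]
    exact hd.ne_zero
  have hsv : ∀ j, (S.det : ℝ) * sv S b j = ((∑ l, S.adjugate j l * b l : ℤ) : ℝ) := by
    intro j
    unfold sv
    rw [Matrix.inv_def, hadj, hdet, Ring.inverse_eq_inv', Matrix.smul_mulVec, Pi.smul_apply,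
      smul_eq_mul, ← mul_assoc, mul_inv_cancel₀ h0, one_mul, Matrix.mulVec, dotProduct]
    push_cast
    rfl
  refine ⟨∑ j, b j * ∑ l, S.adjugate j l * b l, ?_⟩
  unfold sq
  rw [Finset.mul_sum]
  push_cast
  refine Finset.sum_congr rfl fun j _ ↦ ?_
  have h1 := hsv j
  push_cast at h1
  rw [← h1]
  ring

end YPx

section Jacobi

variable {J : Type*} [Fintype J] [DecidableEq J]
variable {V : Type*} [NormedAddCommGroup V] [InnerProductSpace ℂ V]

open YPx in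
/-- Periodicity of the theta coefficients. -/
theorem hb_per {N : ℕ} (hN : 0 < N) {S : Matrix J J ℤ} (hpd : ∀ x : J → ℝ, x ≠ 0 → 0 < QS S x)
    (c : ℤ → (J → ℤ) → V) (b : J → ℤ) (τ : ℂ) :
    hb N S c b (τ + ((N * S.det.natAbs : ℕ) : ℂ)) = hb N S c b τ := by
  have hNc : (N : ℂ) ≠ 0 := by exact_mod_cast hN.ne'
  obtain ⟨z, hz⟩ := det_sq hpd b
  obtain ⟨D, hD⟩ : ∃ D : ℕ, D = S.det.natAbs := ⟨_, rfl⟩
  rw [← hD]
  obtain ⟨w, hw⟩ : ∃ w : ℤ, (D : ℝ) * sq S b = w := by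
    have h0 : (D : ℤ) = S.det ∨ (D : ℤ) = -S.det := by omega
    rcases h0 with h | h
    · refine ⟨z, ?_⟩
      have h1 : (D : ℝ) = (S.det : ℝ) := by exact_mod_cast h
      rw [← hz, h1]
    · refine ⟨-z, ?_⟩
      have h1 : (D : ℝ) = -(S.det : ℝ) := by exact_mod_cast h
      push_cast
      rw [← hz, h1, neg_mul]
  have hw' : (D : ℂ) * (sq S b : ℂ) = (w : ℂ) := by
    exact_mod_cast congrArg (fun x : ℝ ↦ (x : ℂ)) hw
  unfold hb
  refine tsum_congr fun n ↦ ?_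
  have h1 : ((n : ℂ) - (sq S b : ℂ)) * (τ + ((N * D : ℕ) : ℂ)) / N =
      ((n : ℂ) - (sq S b : ℂ)) * τ / N + ((n * (D : ℤ) - w : ℤ) : ℂ) := by
    have h2 : ((n * (D : ℤ) - w : ℤ) : ℂ) = (n : ℂ) * (D : ℂ) - (D : ℂ) * (sq S b : ℂ) := by
      rw [hw']
      push_cast
      ring
    rw [h2, Nat.cast_mul]
    field_simp
  rw [h1, e_add, e_int, mul_one]

end Jacobi

end Pool.Agent.Results.MP_386e47_ag.SpecialCycles
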