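import Pool.Agent.Lib.SPY.Y1
import Pool.Agent.Lib.SPY.Y2
import Pool.Agent.Lib.SPY.YP
import Pool.Agent.Lib.SPY.Y7

/-! Formal Jacobi forms of weight `9/2` whose index is the root lattice `A_3` (helper75). -/

namespace Pool.Agent.Results.MP_386e47_ag.SpecialCycles

open Complex Finset MeasureTheory

namespace Y8x

variable {J : Type*} [Fintype J] [DecidableEq J]

/-- The form of `A_3`, up to scaling. -/
lemma QS_A {S : Matrix J J ℤ} {m : ℤ} (hdiag : ∀ p, S p p = m)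
    (hoff : ∀ p q, p ≠ q → 2 * S p q = m) (x : J → ℝ) :
    QS S x = (m : ℝ) / 2 * (∑ j, x j ^ 2 + (∑ j, x j) ^ 2) := by
  have h1 : ∀ j l, (S j l : ℝ) = (m : ℝ) / 2 * ((if j = l then 1 else 0) + 1) := by
    intro j l
    by_cases hjl : j = l
    · subst hjl
      rw [hdiag, if_pos rfl]
      ring
    · rw [if_neg hjl]
      have h2 : (2 : ℝ) * (S j l : ℝ) = m := by exact_mod_cast hoff j l hjl
      linarith
  unfold QS
  simp only [h1]
  rw [mul_add, mul_sum, pow_two (∑ j, x j), sum_mul_sum, mul_sum, ← sum_add_distrib]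
  refine sum_congr rfl fun j _ ↦ ?_
  rw [mul_sum]
  have h3 : ∀ l, (m : ℝ) / 2 * ((if j = l then 1 else 0) + 1) * x j * x l =
      (if j = l then (m : ℝ) / 2 * x j * x l else 0) + (m : ℝ) / 2 * (x j * x l) := by
    intro l
    split_ifs <;> ring
  rw [sum_congr rfl fun l _ ↦ h3 l, sum_add_distrib, sum_ite_eq]
  simp only [mem_univ, if_true]
  ring

lemma symm_A {S : Matrix J J ℤ} {m : ℤ} (hoff : ∀ p q, p ≠ q → 2 * S p q = m) : S.IsSymm := by
  ext p q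
  rw [Matrix.transpose_apply]
  by_cases hpq : p = q
  · rw [hpq]
  · have h1 := hoff p q hpq
    have h2 := hoff q p (Ne.symm hpq)
    omega

lemma pd_A {S : Matrix J J ℤ} {m : ℤ} (hm : 0 < m) (hdiag : ∀ p, S p p = m)
    (hoff : ∀ p q, p ≠ q → 2 * S p q = m) (x : J → ℝ) (hx : x ≠ 0) : 0 < QS S x := by
  rw [QS_A hdiag hoff]
  have hm' : (0 : ℝ) < m := by exact_mod_cast hm
  obtain ⟨j, hj⟩ := Function.ne_iff.mp hx
  have h1 : 0 < ∑ j, x j ^ 2 := sum_pos' (fun i _ ↦ sq_nonneg _)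
    ⟨j, mem_univ j, by
      have hj' : x j ≠ 0 := hj
      positivity⟩
  have h2 := sq_nonneg (∑ j, x j)
  positivity

lemma int_A (hJ : Fintype.card J = 3) {S : Matrix J J ℤ} {m : ℤ} (hdiag : ∀ p, S p p = m)
    (hoff : ∀ p q, p ≠ q → 2 * S p q = m) (l : J → ℤ) :
    ∑ j, S.mulVec l j = 2 * m * ∑ j, l j := by
  have h1 : ∀ j i, 2 * S j i = (if j = i then m else 0) + m := by
    intro j i
    by_cases hji : j = i
    · subst hji
      rw [hdiag, if_pos rfl]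
      ring
    · rw [if_neg hji, hoff j i hji]
      ring
  have h2 : 2 * ∑ j, S.mulVec l j = ∑ j, ∑ i, (2 * S j i) * l i := by
    rw [mul_sum]
    refine sum_congr rfl fun j _ ↦ ?_
    rw [Matrix.mulVec, dotProduct, mul_sum]
    exact sum_congr rfl fun i _ ↦ by ring
  have h3 : ∀ i, ∑ j, (2 * S j i) * l i = 4 * m * l i := by
    intro i
    rw [← sum_mul]
    congr 1
    rw [sum_congr rfl fun j _ ↦ h1 j i, sum_add_distrib, sum_ite_eq', sum_const, card_univ, hJ]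
    simp only [mem_univ, if_true, nsmul_eq_mul]
    push_cast
    ring
  rw [sum_comm, sum_congr rfl fun i _ ↦ h3 i, ← mul_sum] at h2
  linarith

/-- Completing the square. -/
lemma square {S : Matrix J J ℤ} (hS : S.IsSymm) (hpd : ∀ x : J → ℝ, x ≠ 0 → 0 < QS S x)
    (n : ℤ) (b l : J → ℤ) :
    (n : ℝ) + 2 * ∑ j, (b j : ℝ) * l j + QS S (fun j ↦ (l j : ℝ)) =
      n - sq S b + QS S (fun j ↦ sv S b j + l j) := by
  have h1 := J1.QS_add hS hpd b (fun j ↦ (l j : ℝ))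
  have h2 : (fun j ↦ sv S b j + (l j : ℝ)) = (fun j ↦ (l j : ℝ)) + sv S b := by
    funext j
    rw [Pi.add_apply]
    ring
  rw [h2, h1]
  ring

end Y8x

section

open Y8x J6x

variable {J : Type*} [Fintype J] [DecidableEq J]
variable {V : Type*} [NormedAddCommGroup V] [InnerProductSpace ℂ V] [CompleteSpace V]

/-- There is no formal Jacobi form of weight `9/2` and index `A_3` with the bound `hmin`. -/
theorem no_jac3 (hJ : Fintype.card J = 3) {N : ℕ} (hN : 0 < N) {S : Matrix J J ℤ} {m : ℤ}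
    (hNm : (N : ℤ) = 2 * m) (hdiag : ∀ p, S p p = m) (hoff : ∀ p q, p ≠ q → 2 * S p q = m)
    {c : ℤ → (J → ℤ) → V} (h : IsJac N (9 / 2) S c)
    (hmin : ∀ (n : ℤ) (b : J → ℤ), c n b ≠ 0 → ∀ l : J → ℤ,
      (m : ℝ) ≤ n + 2 * ∑ j, (b j : ℝ) * l j + QS S (fun j ↦ (l j : ℝ))) (n₀ : ℤ) (b₀ : J → ℤ) :
    c n₀ b₀ = 0 := by
  by_contra hne
  have hm : 0 < m := by
    have : (0 : ℤ) < N := by exact_mod_cast hN
    omega
  have hmr : (0 : ℝ) < m := by exact_mod_cast hm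
  have hNr : (N : ℝ) = 2 * m := by exact_mod_cast hNm
  have hN' : (0 : ℝ) < N := by exact_mod_cast hN
  have hS := symm_A hoff
  have hpd := pd_A hm hdiag hoff
  have hJn : Nonempty J := Fintype.card_pos_iff.mp (by omega)
  -- Schur complements
  have hsch : ∀ (n : ℤ) (b : J → ℤ), c n b ≠ 0 → (m : ℝ) / 2 ≤ n - sq S b ∧
      ((n : ℝ) - sq S b = m / 2 → ∀ j, ∃ z : ℤ, sv S b j = z + 1 / 2) := by
    intro n b hc
    obtain ⟨⟨l, hl⟩, h2⟩ := d3 hJ hm hdiag hoff (sv S b)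
    have h3 : ∀ l : J → ℤ, (m : ℝ) ≤ n - sq S b + QS S (fun j ↦ sv S b j + l j) := by
      intro l
      rw [← square hS hpd]
      exact hmin n b hc l
    refine ⟨by linarith [h3 l], fun h4 ↦ h2 fun l' ↦ ?_⟩
    have := h3 l'
    linarith
  have : Finite ((J → ℤ) ⧸ lat S) := lat_finite hS hpd
  let _ : Fintype ((J → ℤ) ⧸ lat S) := Fintype.ofFinite _
  have hgr : ∀ q : (J → ℤ) ⧸ lat S, ∃ C : ℝ, ∀ τ : ℂ, 1 ≤ τ.im →
      ‖hb N S c q.out τ‖ ≤ C * Real.exp (-(2 * Real.pi * (((6 : ℕ) : ℝ) / 24) * τ.im)) :=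
    fun q ↦ hb_growth hN h q.out fun n hc ↦ by
      have := (hsch n _ hc).1
      rw [hNr]
      push_cast
      linarith
  choose Cq hCq using hgr
  obtain ⟨v, hv⟩ : ∃ v : PiLp 2 (fun _ : (J → ℤ) ⧸ lat S ↦ V), ∀ τ : ℂ, 0 < τ.im →
      GG N S c τ = ModularForm.eta τ ^ 6 • v := by
    refine eta_const (R := N * S.det.natAbs) (C := ∑ q, Cq q) ?_ ?_ ?_ ?_ ?_ ?_
    · exact Nat.mul_pos hN (Int.natAbs_pos.mpr (J2_det_int hpd))
    · have h1 : DifferentiableOn ℂ (fun τ : ℂ ↦ fun q : (J → ℤ) ⧸ lat S ↦ hb N S c q.out τ)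
          {τ | 0 < τ.im} := differentiableOn_pi.2 fun q ↦ hb_diff hN h q.out
      exact ((PiLp.continuousLinearEquiv 2 ℂ
        (fun _ : (J → ℤ) ⧸ lat S ↦ V)).symm.differentiable.comp_differentiableOn h1)
    · intro τ hτ
      have h1 : ‖GG N S c (τ + 1)‖ ^ 2 = ‖GG N S c τ‖ ^ 2 := by
        rw [GG_sq, GG_sq]
        exact Finset.sum_congr rfl fun q _ ↦ by rw [hb_T hN h q.out hτ]
      exact (pow_left_inj₀ (norm_nonneg _) (norm_nonneg _) (by norm_num)).1 h1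
    · intro τ hτ
      rw [GG_inv hN hS hpd h hτ, hJ]
      congr 2
      norm_num
    · intro τ _
      ext q
      exact hb_per hN hpd c q.out τ
    · intro τ hτ
      have h1 : ‖GG N S c τ‖ ≤ ∑ q : (J → ℤ) ⧸ lat S, ‖hb N S c q.out τ‖ := by
        have h2 : ‖GG N S c τ‖ ^ 2 ≤ (∑ q : (J → ℤ) ⧸ lat S, ‖hb N S c q.out τ‖) ^ 2 := by
          rw [GG_sq]
          exact Finset.sum_sq_le_sq_sum_of_nonneg fun q _ ↦ norm_nonneg _
        exact (pow_le_pow_iff_left₀ (norm_nonneg _)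
          (Finset.sum_nonneg fun q _ ↦ norm_nonneg _) (by norm_num)).1 h2
      refine h1.trans ?_
      rw [Finset.sum_mul]
      exact Finset.sum_le_sum fun q _ ↦ hCq q τ hτ
  have hvq : ∀ (q : (J → ℤ) ⧸ lat S) (τ : ℂ), 0 < τ.im →
      hb N S c q.out τ = ModularForm.eta τ ^ 6 • v q := by
    intro q τ hτ
    exact congrArg (fun x : PiLp 2 (fun _ : (J → ℤ) ⧸ lat S ↦ V) ↦ x q) (hv τ hτ)
  -- the classes with nonzero value are the deep hole
  have hdeep : ∀ q : (J → ℤ) ⧸ lat S, v q ≠ 0 → ∀ j, ∃ z : ℤ, sv S q.out j = z + 1 / 2 := by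
    intro q hq
    by_contra hcon
    apply hq
    have h1 : ∀ n : ℤ, c n q.out ≠ 0 → (m : ℝ) / 2 < n - sq S q.out := by
      intro n hc
      obtain ⟨h2, h3⟩ := hsch n _ hc
      exact lt_of_le_of_ne h2 fun h4 ↦ hcon (h3 h4.symm)
    obtain ⟨M, hM1, hM2⟩ : ∃ M : ℝ, ((6 : ℕ) : ℝ) / 24 < M ∧
        ∀ n : ℤ, c n q.out ≠ 0 → N * M ≤ n - sq S q.out := by
      by_cases hex : ∃ n : ℤ, c n q.out ≠ 0
      · obtain ⟨n1, hn1, hmin1⟩ := Int.exists_least_of_bdd (P := fun n ↦ c n q.out ≠ 0)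
          ⟨⌊sq S q.out⌋, fun z hz ↦ by
            have h2 := h1 z hz
            have h3 := Int.floor_le (sq S q.out)
            have h4 : (⌊sq S q.out⌋ : ℝ) ≤ z := by linarith
            exact_mod_cast h4⟩ hex
        refine ⟨((n1 : ℝ) - sq S q.out) / N, ?_, fun n hn ↦ ?_⟩
        · rw [lt_div_iff₀ hN', hNr]
          have := h1 n1 hn1
          push_cast
          linarith
        · rw [mul_div_cancel₀ _ hN'.ne']
          have : (n1 : ℝ) ≤ n := by exact_mod_cast hmin1 n hn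
          linarith
      · push Not at hex
        exact ⟨1, by norm_num, fun n hn ↦ absurd (hex n) hn⟩
    obtain ⟨C, hC⟩ := hb_growth hN h q.out hM2
    refine eta_fast (C := C) hM1 fun τ hτ ↦ ?_
    rw [← hvq q τ (by linarith)]
    exact hC τ hτ
  have hcls : ∀ b : J → ℤ, ∃ l : J → ℤ,
      b = (QuotientAddGroup.mk b : (J → ℤ) ⧸ lat S).out + S.mulVec l := by
    intro b
    set q : (J → ℤ) ⧸ lat S := QuotientAddGroup.mk b with hq
    have h2 : -q.out + b ∈ lat S := by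
      rw [← QuotientAddGroup.eq]
      exact Quotient.out_eq q
    obtain ⟨l, hl⟩ := h2
    refine ⟨l, ?_⟩
    have h4 : S.mulVec l = -q.out + b := hl
    rw [h4]
    abel
  have hnorm : ∀ (b : J → ℤ) (τ : ℂ), 0 < τ.im → ‖hb N S c b τ‖ =
      ‖ModularForm.eta τ ^ 6 • v (QuotientAddGroup.mk b : (J → ℤ) ⧸ lat S)‖ := by
    intro b τ hτ
    obtain ⟨l, hl⟩ := hcls b
    rw [← hvq _ τ hτ]
    conv_lhs => rw [hl]
    exact hb_quasi hN hS hpd h _ l hτ
  have hv0 : ∀ (n : ℤ) (b : J → ℤ), c n b ≠ 0 →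
      v (QuotientAddGroup.mk b : (J → ℤ) ⧸ lat S) ≠ 0 := by
    intro n b hc hv1
    refine hc (hb_zero hN h b (fun τ hτ ↦ ?_) n)
    rw [← norm_eq_zero, hnorm b τ hτ, hv1, smul_zero, norm_zero]
  refine single hN hS hpd h (fun l ↦ ⟨∑ j, l j, ?_⟩) (fun n b hc j ↦ ?_) (b₀ := b₀) fun τ hτ ↦ ?_
  · rw [int_A hJ hdiag hoff, hNm]
  · obtain ⟨l, hl⟩ := hcls b
    obtain ⟨z, hz⟩ := hdeep _ (hv0 n b hc) j
    refine ⟨z + l j, ?_⟩
    rw [hl, J2_sv_add hpd, Pi.add_apply, hz]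
    push_cast
    ring
  · rw [← norm_ne_zero_iff, hnorm b₀ τ hτ, norm_ne_zero_iff]
    exact smul_ne_zero (pow_ne_zero _ (ModularForm.eta_ne_zero hτ)) (hv0 n₀ b₀ hne)

end

end Pool.Agent.Results.MP_386e47_ag.SpecialCycles
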