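import Pool.Agent.Lib.SPX.F
import Pool.Agent.Lib.SPY.Y6
import Pool.Agent.Lib.SPY.Y8

/-! The main theorem in all degrees, weight at most `9/2` (helper75). -/

namespace Pool.Agent.Results.MP_386e47_ag.SpecialCycles

open Complex Finset MeasureTheory

universe u v

section Main

variable {ι : Type u} [Fintype ι] [DecidableEq ι]
variable {V : Type v} [NormedAddCommGroup V] [InnerProductSpace ℂ V] [CompleteSpace V]

lemma kap_eq (n : ℕ) (h : 6 * kap n + n / 2 ≤ 9 / 2) : n = 3 ∨ n = 5 := by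
  rcases Nat.lt_or_ge n 9 with h1 | h1
  · interval_cases n <;> first | exact Or.inl rfl | exact Or.inr rfl |
      (exfalso; simp only [kap] at h; norm_num at h)
  · exfalso
    have h2 := kap_pos n
    have h3 : (9 : ℝ) ≤ n := by exact_mod_cast h1
    linarith

lemma HM.mono {n : ℕ} {X : Set (Matrix (Fin (n + 1)) (Fin (n + 1)) ℤ)} {β β' : ℝ}
    (h : HM X β) (hβ : β ≤ β') : HM X β' := by
  intro B hB
  obtain ⟨B₁, hB₁, h1, x, hx, hq⟩ := h B hB
  exact ⟨B₁, hB₁, h1, x, hx, hq.trans hβ⟩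

/-- The extremal case of four variables. -/
theorem four (hcard : Fintype.card ι = 3 + 1) {N : ℕ} (hN : 0 < N) {a : Matrix ι ι ℤ → V}
    (h : IsSiegel N (9 / 2) a) (ε : ι ≃ Fin (3 + 1))
    (hX : Good {B : Matrix (Fin (3 + 1)) (Fin (3 + 1)) ℤ | a (B.submatrix ε ε) ≠ 0}) {m : ℤ}
    (hmin : ∀ B ∈ {B : Matrix (Fin (3 + 1)) (Fin (3 + 1)) ℤ | a (B.submatrix ε ε) ≠ 0},
      m ≤ B 0 0) (hNm : (N : ℤ) = 2 * m)
    {C : Matrix (Fin (3 + 1)) (Fin (3 + 1)) ℤ}
    (hC : C ∈ {B : Matrix (Fin (3 + 1)) (Fin (3 + 1)) ℤ | a (B.submatrix ε ε) ≠ 0})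
    (hC00 : C 0 0 = m) (hC11 : C 1 1 = m) (hC22 : C 2 2 = m) (hC01 : 2 * C 0 1 = m)
    (hC02 : 2 * C 0 2 = m) (hC12 : 2 * C 1 2 = m) : False := by
  set i : ι := ε.symm (Fin.last 3) with hi
  have hCs := hX.symm C hC
  have h10 : C 1 0 = C 0 1 := hCs.apply 0 1
  have h20 : C 2 0 = C 0 2 := hCs.apply 0 2
  have h21 : C 2 1 = C 1 2 := hCs.apply 1 2
  have hne : ∀ p : {j // j ≠ i}, ε p.1 ≠ Fin.last 3 := by
    intro p hp
    apply p.2
    have h1 := congrArg ε.symm hp
    rwa [Equiv.symm_apply_apply] at h1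
  set S : Matrix {j // j ≠ i} {j // j ≠ i} ℤ := blk i (C.submatrix ε ε) with hS
  have hSe : ∀ p q, S p q = C (ε p.1) (ε q.1) := fun p q ↦ rfl
  have hcase : ∀ s : Fin (3 + 1), s ≠ Fin.last 3 → s = 0 ∨ s = 1 ∨ s = 2 := by decide
  have hdiag : ∀ p, S p p = m := by
    intro p
    rw [hSe]
    rcases hcase _ (hne p) with h1 | h1 | h1 <;> rw [h1] <;> assumption
  have hoff : ∀ p q, p ≠ q → 2 * S p q = m := by
    intro p q hpq
    rw [hSe]
    have h0 : ε p.1 ≠ ε q.1 := fun h1 ↦ hpq (Subtype.ext (ε.injective h1))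
    rcases hcase _ (hne p) with h1 | h1 | h1 <;> rcases hcase _ (hne q) with h2 | h2 | h2 <;>
      rw [h1, h2] at h0 ⊢ <;> first | exact absurd rfl h0 | assumption | (simp only [h10, h20, h21]; assumption)
  have hJ : Fintype.card {j // j ≠ i} = 3 := by
    rw [Fintype.card_subtype_compl, Fintype.card_subtype_eq, hcard]
  have hSs : S.IsSymm := Y8x.symm_A hoff
  have hJac := isJac_of_siegel hN h i S hSs
  have hback : ∀ B : Matrix ι ι ℤ, (B.submatrix ε.symm ε.symm).submatrix ε ε = B := by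
    intro B
    ext p q
    simp
  have hBmk : mk i (C.submatrix ε ε i i) (fun p ↦ C.submatrix ε ε i p.1) S = C.submatrix ε ε :=
    mk_self i (by
      ext p q
      exact hCs.apply _ _)
  refine hC ?_
  rw [← hBmk]
  refine no_jac3 hJ hN hNm hdiag hoff hJac (fun n b hc l ↦ ?_) _ _
  -- the vector `(l, 1)`
  set y : ι → ℤ := fun p ↦ if hp : p = i then 1 else l ⟨p, hp⟩ with hy
  have hmem : (mk i n b S).submatrix ε.symm ε.symm ∈
      {B : Matrix (Fin (3 + 1)) (Fin (3 + 1)) ℤ | a (B.submatrix ε ε) ≠ 0} := by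
    change a (((mk i n b S).submatrix ε.symm ε.symm).submatrix ε ε) ≠ 0
    rw [hback]
    exact hc
  obtain ⟨B', hB', hB'q⟩ := hX.vec hmem (fun s ↦ y (ε.symm s)) (Fin.last 3) (by
    rw [hy]
    simp [hi])
  have h1 : (m : ℝ) ≤ B' 0 0 := by exact_mod_cast hmin B' hB'
  rw [hB'q] at h1
  have h2 := QS_submatrix ε ((mk i n b S).submatrix ε.symm ε.symm) (fun q ↦ ((y (ε.symm q) : ℤ) : ℝ))
  rw [hback] at h2
  simp only [Equiv.symm_apply_apply] at h2
  rw [← h2, QS_mk] at h1
  have hyi : y i = 1 := by simp [hy]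
  have hyp : ∀ p : {j // j ≠ i}, y p.1 = l p := by
    intro p
    simp [hy, p.2]
  simp only [hyi, hyp] at h1
  push_cast at h1
  linarith

theorem mainY_aux (g : ℕ) : ∀ {ι : Type u} [Fintype ι] [DecidableEq ι], Fintype.card ι = g →
    ∀ {N : ℕ}, 0 < N → ∀ {k : ℝ}, (k ≤ 9 / 2 ∨ (g ≤ 3 ∧ k < 5)) →
    ∀ {a : Matrix ι ι ℤ → V}, IsSiegel N k a →
    (∀ t : ι → ℤ, Mom a [] t = 0) → ∀ B, a B = 0 := by
  induction g with
  | zero =>
    intro ι _ _ hcard N hN k hk a h hv B
    have hemp : IsEmpty ι := Fintype.card_eq_zero_iff.mp hcard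
    have h1 := hv (fun _ ↦ 0)
    unfold Mom at h1
    have hsub : ∀ B' : Matrix ι ι ℤ, B' = B := fun B' ↦ by
      ext j
      exact hemp.elim j
    have h2 : ∑' B' : {B : Matrix ι ι ℤ // ∀ j, B j j = (fun _ ↦ (0 : ℤ)) j},
        (([] : List (ι × ι)).map fun p ↦ ((B'.1 p.1 p.2 : ℤ) : ℂ)).prod • a B'.1 = a B := by
      rw [tsum_eq_single ⟨B, fun j ↦ hemp.elim j⟩
        (fun B' hB' ↦ absurd (Subtype.ext (hsub B'.1)) hB')]
      simp
    rw [← h2]
    exact h1
  | succ n ih =>
    intro ι _ _ hcard N hN k hk a h hv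
    by_contra hcon
    push Not at hcon
    obtain ⟨B₀, hB₀⟩ := hcon
    have hNr : (0 : ℝ) < N := by exact_mod_cast hN
    have hcard' : ∀ i : ι, Fintype.card {j // j ≠ i} = n := by
      intro i
      rw [Fintype.card_subtype_compl, Fintype.card_subtype_eq, hcard]
      omega
    have hres : ∀ (i : ι) (m : ℤ) (B' : Matrix {j // j ≠ i} {j // j ≠ i} ℤ),
        res a i m B' = 0 := fun i m ↦
      ih (hcard' i) hN (hk.imp_right fun h1 ↦ ⟨by omega, h1.2⟩) (res_siegel hN h i m)
        (mom_nil_res h i m hv)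
    have hhalf : ∀ (i : ι) {B : Matrix ι ι ℤ}, a B ≠ 0 → (N : ℤ) ≤ 2 * B i i := fun i B hB ↦
      half hN h i (fun es hes t ↦ mom_avoid h i (hres i) hes t) hB
    let ε : ι ≃ Fin (n + 1) := Fintype.equivFinOfCardEq hcard
    let X : Set (Matrix (Fin (n + 1)) (Fin (n + 1)) ℤ) := {B | a (B.submatrix ε ε) ≠ 0}
    have hback : ∀ B : Matrix ι ι ℤ, (B.submatrix ε.symm ε.symm).submatrix ε ε = B := by
      intro B
      ext p q
      simp
    have hne : X.Nonempty := ⟨B₀.submatrix ε.symm ε.symm, by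
      change a ((B₀.submatrix ε.symm ε.symm).submatrix ε ε) ≠ 0
      rw [hback]
      exact hB₀⟩
    have hs : ∀ B ∈ X, B.IsSymm := by
      intro B hB
      have h1 := h.symm _ hB
      ext p q
      have h2 := h1.apply (ε.symm p) (ε.symm q)
      simpa using h2
    have hdiag : ∀ B ∈ X, (N : ℤ) ≤ 2 * B 0 0 := by
      intro B hB
      have h1 := hhalf (ε.symm 0) hB
      simpa using h1
    have hpos : ∀ B ∈ X, 0 < B 0 0 := by
      intro B hB
      have h1 := hdiag B hB
      have h2 : (0 : ℤ) < N := by exact_mod_cast hN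
      omega
    have hgl : ∀ B ∈ X, ∀ U : Matrix (Fin (n + 1)) (Fin (n + 1)) ℤ, IsUnit U.det →
        U.transpose * B * U ∈ X := by
      intro B hB U hU
      obtain ⟨ρ, hρ⟩ := h.gl (U.submatrix ε ε) (by
        rw [Matrix.det_submatrix_equiv_self]
        exact hU)
      change a ((U.transpose * B * U).submatrix ε ε) ≠ 0
      have h1 : (U.transpose * B * U).submatrix ε ε =
          (U.submatrix ε ε).transpose * B.submatrix ε ε * U.submatrix ε ε := by
        rw [Matrix.transpose_submatrix, Matrix.submatrix_mul_equiv, Matrix.submatrix_mul_equiv]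
      rw [h1, hρ]
      intro h2
      exact hB ((map_eq_zero_iff ρ ρ.injective).mp h2)
    have hM : HM X (N * (k - n / 2) / 12) := by
      intro B hB
      set i : ι := ε.symm (Fin.last n) with hi
      set B' : Matrix ι ι ℤ := B.submatrix ε ε with hB'
      have hB's : B'.IsSymm := h.symm _ hB
      set S := blk i B' with hS
      have hSs : S.IsSymm := by
        ext p q
        exact hB's.apply p.1 q.1
      have hBmk : mk i (B' i i) (fun p ↦ B' i p.1) S = B' := mk_self i hB's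
      have hpd : ∀ x : {j // j ≠ i} → ℝ, x ≠ 0 → 0 < QS S x := by
        intro x hx
        set y : ι → ℝ := fun p ↦ if hp : p = i then 0 else x ⟨p, hp⟩ with hy
        have hyx : (fun p : {j // j ≠ i} ↦ y p.1) = x := by
          funext p
          simp [hy, p.2]
        have hyi : y i = 0 := by simp [hy]
        have h1 : QS B' y = QS S x := by
          rw [← hBmk, QS_mk, hyx, hyi]
          ring
        rw [← h1]
        have h2 := QS_submatrix ε B (fun q ↦ y (ε.symm q))
        simp only [Equiv.symm_apply_apply] at h2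
        rw [hB', h2]
        refine lat_pd n X hs hpos hgl hB ?_
        intro h3
        apply hx
        rw [← hyx]
        funext p
        have h4 := congrFun h3 (ε p.1)
        simpa using h4
      have hJ := isJac_of_siegel hN h i S hSs
      obtain ⟨m, b, hmb, x, hx⟩ := schur hN hSs hpd hJ (n₀ := B' i i) (b₀ := fun p ↦ B' i p.1) (by
        change a (mk i (B' i i) (fun p ↦ B' i p.1) S) ≠ 0
        rw [hBmk]
        exact hB)
      refine ⟨(mk i m b S).submatrix ε.symm ε.symm, ?_, ?_, ?_⟩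
      · change a (((mk i m b S).submatrix ε.symm ε.symm).submatrix ε ε) ≠ 0
        rw [hback]
        exact hmb
      · intro j l hj hl
        have hj' : ε.symm j ≠ i := fun h1 ↦ hj (ε.symm.injective h1)
        have hl' : ε.symm l ≠ i := fun h1 ↦ hl (ε.symm.injective h1)
        rw [Matrix.submatrix_apply, mk_pq i m b S ⟨_, hj'⟩ ⟨_, hl'⟩, hS]
        simp [blk, hB']
      · set y : ι → ℝ := fun p ↦ if hp : p = i then 1 else x ⟨p, hp⟩ with hy
        have hyx : (fun p : {j // j ≠ i} ↦ y p.1) = x := by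
          funext p
          simp [hy, p.2]
        have hyi : y i = 1 := by simp [hy]
        refine ⟨fun q ↦ y (ε.symm q), hyi, ?_⟩
        have h2 := QS_submatrix ε ((mk i m b S).submatrix ε.symm ε.symm) (fun q ↦ y (ε.symm q))
        simp only [Equiv.symm_apply_apply] at h2
        rw [← h2, hback, QS_mk, hyi, hyx]
        have h3 : ∑ p : {j // j ≠ i}, (b p : ℝ) * y p.1 = ∑ p, (b p : ℝ) * x p := by
          refine sum_congr rfl fun p _ ↦ ?_
          rw [← hyx]
        rw [h3]
        rw [hcard'] at hx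
        linarith
    have hX : Good X := ⟨hs, hpos, hgl⟩
    obtain ⟨B, hB, hBk⟩ := lat_min n X hne hs hpos hgl _ hM
    obtain ⟨Bm, hBm, hmin⟩ := hX.exists_min hne
    have h1 := hdiag Bm hBm
    have h2 : (N : ℝ) ≤ 2 * (Bm 0 0 : ℝ) := by exact_mod_cast h1
    have hmB : (Bm 0 0 : ℝ) ≤ B 0 0 := by exact_mod_cast hmin B hB
    have hkap : 0 < kap n := kap_pos n
    have h3 : kap n * (Bm 0 0 : ℝ) ≤ kap n * B 0 0 := mul_le_mul_of_nonneg_left hmB hkap.le
    have h4 : kap n * N ≤ 2 * (N * (k - n / 2) / 12) := by nlinarith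
    have h5 : 6 * kap n ≤ k - n / 2 := by
      have h6 : N * (6 * kap n) ≤ N * (k - n / 2) := by linarith
      exact le_of_mul_le_mul_left h6 hNr
    rcases hk with hk | ⟨hn, hk⟩
    · have hk9 : k = 9 / 2 := le_antisymm hk (by linarith [kap_ineq n])
      subst hk9
      rcases kap_eq n (by linarith) with rfl | rfl
      · -- four variables
        have h7 : (2 : ℝ) * Bm 0 0 ≤ N := by
          have h8 : kap 3 = 1 / 2 := by norm_num [kap]
          rw [h8] at hBk h3
          push_cast at hBk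
          linarith
        have hNm : (N : ℤ) = 2 * Bm 0 0 := by
          have h9 : (2 : ℤ) * Bm 0 0 ≤ N := by exact_mod_cast h7
          omega
        have hM2 : HM X ((Bm 0 0 : ℝ) / 2) := HM.mono hM (by push_cast; linarith)
        obtain ⟨C, hC, hC00, hC11, hC22, hC01, hC02, hC12⟩ := blockA3 hne hX hmin hM2
        exact four hcard hN h ε hX hmin hNm hC hC00 hC11 hC22 hC01 hC02 hC12
      · -- six variables
        exact no6 hne hX hmin (HM.mono hM (by push_cast; linarith))
    · have h7 : (5 : ℝ) ≤ 6 * kap n + n / 2 := by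
        have h8 : n = 0 ∨ n = 1 ∨ n = 2 := by omega
        rcases h8 with rfl | rfl | rfl <;> norm_num [kap]
      linarith

end Main

/-- **Theorem.** A formal Siegel modular form of any degree and of weight `k ≤ 9/2` (`k < 5` if the
degree is at most `3`) is zero if its moments of order `0` with diagonal at most `k N / 12`
vanish. -/
theorem mainY {ι : Type u} [Fintype ι] [DecidableEq ι]
    {V : Type v} [NormedAddCommGroup V] [InnerProductSpace ℂ V] [CompleteSpace V]
    {N : ℕ} (hN : 0 < N) {k : ℝ} (hk : k ≤ 9 / 2 ∨ (Fintype.card ι ≤ 3 ∧ k < 5))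
    {a : Matrix ι ι ℤ → V} (h : IsSiegel N k a)
    (hv : ∀ t : ι → ℤ, (∀ i, 12 * (t i : ℝ) ≤ k * N) → Mom a [] t = 0) : ∀ B, a B = 0 :=
  mainY_aux _ rfl hN hk h (small_diag hN h hv)

end Pool.Agent.Results.MP_386e47_ag.SpecialCycles
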