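import Pool.Agent.Lib.SPC.DeltaBound

/-! Row Y1: the extremal case of the decay bound; powers of the eta function. -/

namespace Pool.Agent.Results.MP_386e47_ag.SpecialCycles

open Complex Filter Topology

namespace Y1

open Function Function.Periodic Asymptotics UpperHalfPlane
open scoped MatrixGroups ModularForm

section Cusp

set_option linter.unusedSectionVars false

variable {E : Type*} [NormedAddCommGroup E] [NormedSpace ℂ E] {h : ℝ} {f : ℂ → E}

/-- The cusp function of a periodic function with values in a Banach space. -/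
noncomputable def cF (h : ℝ) (f : ℂ → E) : ℂ → E :=
  update (f ∘ invQParam h) 0 (limUnder (𝓝[≠] 0) (f ∘ invQParam h))

lemma cF_ne {q : ℂ} (hq : q ≠ 0) : cF h f q = f (invQParam h q) := update_of_ne hq ..

lemma cF_zero : cF h f 0 = limUnder (𝓝[≠] 0) (cF h f) := by
  conv_lhs => simp only [cF, update_self]
  refine congr_arg lim (Filter.map_congr <| eventuallyEq_nhdsWithin_of_eqOn fun r hr ↦ ?_)
  rw [cF, update_of_ne hr]

lemma eq_cF (hh : h ≠ 0) (hf : Periodic f h) (z : ℂ) : (cF h f) (qParam h z) = f z := by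
  have : (cF h f) (qParam h z) = f (invQParam h (qParam h z)) := by
    rw [cF, update_of_ne, comp_apply]
    exact exp_ne_zero _
  obtain ⟨m, hm⟩ := qParam_left_inv_mod_period hh z
  simpa only [this, hm] using hf.int_mul m z

lemma diff_cF (hh : h ≠ 0) (hf : Periodic f h) {z : ℂ} (hol_z : DifferentiableAt ℂ f z) :
    DifferentiableAt ℂ (cF h f) (qParam h z) := by
  let q := qParam h z
  have qdiff : HasStrictDerivAt (qParam h) (q * (2 * Real.pi * Complex.I / h)) z := by
    simpa only [id_eq, mul_one] using! (((hasStrictDerivAt_id z).const_mul _).div_const _).cexp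
  have diff_ne : q * (2 * Real.pi * Complex.I / h) ≠ 0 :=
    mul_ne_zero (exp_ne_zero _) (div_ne_zero two_pi_I_ne_zero <| mod_cast hh)
  let L := (qdiff.localInverse (qParam h) _ z) diff_ne
  have diff_L : DifferentiableAt ℂ L q :=
    (qdiff.to_localInverse diff_ne).hasStrictFDerivAt.differentiableAt
  have hL : qParam h ∘ L =ᶠ[𝓝 q] (id : ℂ → ℂ) :=
    (qdiff.hasStrictFDerivAt_equiv diff_ne).eventually_right_inverse
  have hF := hL.fun_comp (cF h f)
  have : cF h f ∘ qParam h ∘ L = f ∘ L := funext fun z ↦ eq_cF hh hf (L z)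
  rw [this] at hF
  rw [← EventuallyEq.eq_of_nhds (qdiff.hasStrictFDerivAt_equiv diff_ne).eventually_left_inverse]
    at hol_z
  exact (hol_z.comp q diff_L).congr_of_eventuallyEq hF.symm

lemma diffOn_cF [CompleteSpace E] (hh : 0 < h) (hf : Periodic f h)
    (hd : ∀ z : ℂ, 0 < z.im → DifferentiableAt ℂ f z) {A B : ℝ}
    (hb : ∀ z : ℂ, A < z.im → ‖f z‖ ≤ B) : DifferentiableOn ℂ (cF h f) (Metric.ball 0 1) := by
  have him : ∀ q : ℂ, q ≠ 0 → ‖q‖ < 1 → 0 < (invQParam h q).im := by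
    intro q hq hq1
    have h2 := (norm_qParam_lt_iff hh 0 (invQParam h q)).mp (by
      rw [qParam_right_inv hh.ne' hq]; simpa using hq1)
    exact h2
  have hd' : ∀ q : ℂ, q ≠ 0 → ‖q‖ < 1 → DifferentiableAt ℂ (cF h f) q := by
    intro q hq hq1
    have h3 := diff_cF hh.ne' hf (hd _ (him q hq hq1))
    rwa [qParam_right_inv hh.ne' hq] at h3
  intro q hq
  rw [mem_ball_zero_iff] at hq
  by_cases hq0 : q = 0
  · subst hq0
    set ρ : ℝ := min 1 (Real.exp (-2 * Real.pi * A / h)) with hρ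
    have hρ0 : 0 < ρ := lt_min one_pos (Real.exp_pos _)
    have hS : Metric.ball (0 : ℂ) ρ ∈ 𝓝 (0 : ℂ) := Metric.ball_mem_nhds _ hρ0
    have h_diff : DifferentiableOn ℂ (cF h f) (Metric.ball 0 ρ \ {0}) := by
      intro x hx
      have hx1 : ‖x‖ < ρ := mem_ball_zero_iff.mp hx.1
      exact (hd' x hx.2 (hx1.trans_le (min_le_left _ _))).differentiableWithinAt
    have hbd : BddAbove (norm ∘ cF h f '' (Metric.ball 0 ρ \ {0})) := by
      use B
      rintro y ⟨x, hx, rfl⟩
      have hx1 : ‖x‖ < ρ := mem_ball_zero_iff.mp hx.1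
      have hx2 : x ≠ 0 := hx.2
      simp only [comp_apply]
      rw [cF_ne hx2]
      apply hb
      apply (norm_qParam_lt_iff hh A (invQParam h x)).mp
      rw [qParam_right_inv hh.ne' hx2]
      exact hx1.trans_le (min_le_right _ _)
    have := differentiableOn_update_limUnder_of_bddAbove hS h_diff hbd
    rw [← cF_zero, update_eq_self] at this
    exact (this.differentiableAt hS).differentiableWithinAt
  · exact (hd' q hq0 hq).differentiableWithinAt

end Cusp

/-- The lower bound of the eta function at the cusp. -/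
lemma eta_low (p : ℕ) : ∃ A c : ℝ, 0 < c ∧ 0 < A ∧ ∀ z : ℂ, A ≤ z.im →
    c * Real.exp (-(2 * Real.pi * ((p : ℝ) / 24) * z.im)) ≤ ‖ModularForm.eta z ^ p‖ := by
  obtain ⟨c, hc, hc2⟩ := ModularForm.exp_isBigO_discriminant.exists_pos
  obtain ⟨A, hA⟩ := (atImInfty_mem _).mp hc2.bound
  refine ⟨max A 1, (c⁻¹) ^ ((p : ℝ) / 24), by positivity, by positivity, ?_⟩
  intro z hz
  have hz0 : 0 < z.im := lt_of_lt_of_le (by positivity) hz
  have h1 := hA ⟨z, hz0⟩ ((le_max_left _ _).trans hz)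
  have h5 : Real.exp (-2 * Real.pi * z.im) ≤ c * ‖ModularForm.eta z‖ ^ 24 := by
    have h2 : ‖Real.exp (-2 * Real.pi * (⟨z, hz0⟩ : ℍ).im)‖ ≤
      c * ‖ModularForm.discriminant ⟨z, hz0⟩‖ := h1
    rw [Real.norm_of_nonneg (Real.exp_pos _).le, ← D24_eq] at h2
    simp only [D24, norm_pow] at h2
    exact h2
  have h6 : c⁻¹ * Real.exp (-2 * Real.pi * z.im) ≤ ‖ModularForm.eta z‖ ^ 24 := by
    rw [inv_mul_le_iff₀ hc]; exact h5
  have h7 := Real.rpow_le_rpow (by positivity) h6 (by positivity : 0 ≤ (p : ℝ) / 24)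
  rw [Real.mul_rpow (by positivity) (Real.exp_pos _).le, ← Real.exp_mul, ← Real.rpow_natCast,
    ← Real.rpow_mul (norm_nonneg _)] at h7
  have h8 : ((24 : ℕ) : ℝ) * ((p : ℝ) / 24) = p := by push_cast; ring
  rw [h8, Real.rpow_natCast, ← norm_pow] at h7
  have h9 : -2 * Real.pi * z.im * ((p : ℝ) / 24) = -(2 * Real.pi * ((p : ℝ) / 24) * z.im) := by
    ring
  rwa [h9] at h7

lemma eta_T (R : ℕ) (z : ℂ) : ModularForm.eta (z + (24 * R : ℕ)) = ModularForm.eta z := by
  have h1 : qParam 24 (z + (24 * R : ℕ)) = qParam 24 z := by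
    simp only [qParam]
    rw [Complex.exp_eq_exp_iff_exists_int]
    refine ⟨R, ?_⟩
    push_cast
    ring
  have h2 : ∀ n, ModularForm.eta_q n (z + (24 * R : ℕ)) = ModularForm.eta_q n z := by
    intro n
    have h3 : qParam 1 (z + (24 * R : ℕ)) = qParam 1 z := by
      simp only [qParam]
      rw [Complex.exp_eq_exp_iff_exists_int]
      refine ⟨24 * R, ?_⟩
      push_cast
      ring
    unfold ModularForm.eta_q
    rw [h3]
  simp only [ModularForm.eta]
  rw [h1]
  simp only [h2]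

lemma uf_eq {V : Type*} [NormedAddCommGroup V] [NormedSpace ℂ V] (g : ℂ → V) (p : ℕ) (τ : ℂ) :
    uf g ((p : ℝ) / 2) τ = ‖(ModularForm.eta τ ^ p)⁻¹ • g τ‖ := by
  unfold uf D24
  rw [norm_smul, norm_inv, norm_pow, norm_pow, ← Real.rpow_natCast, ← Real.rpow_mul (norm_nonneg _)]
  have h8 : ((24 : ℕ) : ℝ) * -((p : ℝ) / 2 / 12) = -p := by push_cast; ring
  rw [h8, Real.rpow_neg (norm_nonneg _), Real.rpow_natCast, mul_comm]

end Y1

open Y1 in
theorem eta_const {E : Type*} [NormedAddCommGroup E] [InnerProductSpace ℂ E]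
    [CompleteSpace E] {g : ℂ → E} {p R : ℕ} {C : ℝ} (hR : 0 < R)
    (hd : DifferentiableOn ℂ g {τ | 0 < τ.im})
    (h1 : ∀ τ : ℂ, 0 < τ.im → ‖g (τ + 1)‖ = ‖g τ‖)
    (h2 : ∀ τ : ℂ, 0 < τ.im → ‖g (-1 / τ)‖ = ‖τ‖ ^ ((p : ℝ) / 2) * ‖g τ‖)
    (hper : ∀ τ : ℂ, 0 < τ.im → g (τ + R) = g τ)
    (hb : ∀ τ : ℂ, 1 ≤ τ.im →
      ‖g τ‖ ≤ C * Real.exp (-(2 * Real.pi * ((p : ℝ) / 24) * τ.im))) :
    ∃ v : E, ∀ τ : ℂ, 0 < τ.im → g τ = ModularForm.eta τ ^ p • v := by
  classical
  have hopen : IsOpen {τ : ℂ | 0 < τ.im} := isOpen_lt continuous_const Complex.continuous_im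
  have hpi := Real.pi_pos
  set h : ℝ := 24 * R with hh
  have hR' : (0 : ℝ) < R := by exact_mod_cast hR
  have hh0 : 0 < h := by positivity
  set f : ℂ → E := fun τ ↦ if 0 < τ.im then (ModularForm.eta τ ^ p)⁻¹ • g τ else 0 with hf
  have hf1 : ∀ τ : ℂ, 0 < τ.im → f τ = (ModularForm.eta τ ^ p)⁻¹ • g τ := fun τ hτ ↦ by
    simp only [hf, hτ, if_true]
  have hη : ∀ τ : ℂ, 0 < τ.im → ModularForm.eta τ ≠ 0 := fun τ hτ ↦ ModularForm.eta_ne_zero hτ
  -- invariance
  set u : UpperHalfPlane → ℝ := fun z ↦ uf g ((p : ℝ) / 2) z with hu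
  have huf : ∀ z : UpperHalfPlane, ‖f z‖ = u z := fun z ↦ by
    rw [hf1 _ z.im_pos, hu, ← uf_eq]
  have hDne : ∀ z : UpperHalfPlane, ‖D24 (z : ℂ)‖ ≠ 0 := fun z ↦
    norm_ne_zero_iff.mpr (D24_ne z.im_pos)
  have hT : ∀ z, u (ModularGroup.T • z) = u z := by
    intro z
    simp only [hu, uf]
    rw [D24_T]
    congr 1
    rw [UpperHalfPlane.modular_T_smul]
    have := h1 z z.im_pos
    simpa [add_comm] using this
  have hS : ∀ z, u (ModularGroup.S • z) = u z := by
    intro z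
    simp only [hu, uf]
    have hz : 0 < ‖(z : ℂ)‖ := norm_pos_iff.mpr z.ne_zero
    have h3 : ((ModularGroup.S • z : UpperHalfPlane) : ℂ) = -1 / (z : ℂ) := by
      rw [UpperHalfPlane.modular_S_smul]
      simp [neg_div, inv_neg]
    rw [D24_S, norm_mul, norm_pow, Real.mul_rpow (by positivity) (norm_nonneg _), h3,
      h2 z z.im_pos, ← Real.rpow_natCast, ← Real.rpow_mul hz.le]
    have h4 : ((12 : ℕ) : ℝ) * -((p : ℝ) / 2 / 12) = -((p : ℝ) / 2) := by push_cast; ring
    rw [h4, Real.rpow_neg hz.le]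
    have h5 : ‖(z : ℂ)‖ ^ ((p : ℝ) / 2) ≠ 0 := (Real.rpow_pos_of_pos hz _).ne'
    field_simp
  -- periodicity
  have hgper : ∀ (m : ℕ) (τ : ℂ), 0 < τ.im → g (τ + (m * R : ℕ)) = g τ := by
    intro m
    induction m with
    | zero => intro τ _; simp
    | succ m ih =>
      intro τ hτ
      have h3 : τ + (((m + 1) * R : ℕ) : ℂ) = (τ + ((m * R : ℕ) : ℂ)) + R := by
        push_cast; ring
      have h4 : 0 < (τ + ((m * R : ℕ) : ℂ)).im := by
        rw [Complex.add_im, Complex.natCast_im, add_zero]; exact hτ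
      rw [h3, hper _ h4, ih τ hτ]
  have hfper : Function.Periodic f h := by
    intro τ
    have hc : (h : ℂ) = ((24 * R : ℕ) : ℂ) := by rw [hh]; push_cast; ring
    have him : (τ + (h : ℂ)).im = τ.im := by simp
    by_cases hτ : 0 < τ.im
    · rw [hf1 _ (by rw [him]; exact hτ), hf1 _ hτ, hc, eta_T, hgper 24 τ hτ]
    · simp only [hf, him, hτ, if_false]
  have hfd : ∀ z : ℂ, 0 < z.im → DifferentiableAt ℂ f z := by
    intro z hz
    have h3 : DifferentiableAt ℂ (fun τ ↦ (ModularForm.eta τ ^ p)⁻¹ • g τ) z :=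
      (((ModularForm.differentiableAt_eta_of_mem_upperHalfPlaneSet hz).pow p).inv
        (pow_ne_zero _ (hη z hz))).smul (hd.differentiableAt (hopen.mem_nhds hz))
    apply h3.congr_of_eventuallyEq
    filter_upwards [hopen.mem_nhds hz] with τ hτ
    exact hf1 τ hτ
  obtain ⟨A, c, hc, hA, hlow⟩ := eta_low p
  have hC : 0 ≤ C := by
    have h3 := hb Complex.I (by simp)
    by_contra hC
    push Not at hC
    have h4 := (norm_nonneg _).trans h3
    have h5 : C * Real.exp (-(2 * Real.pi * ((p : ℝ) / 24) * Complex.I.im)) < 0 :=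
      mul_neg_of_neg_of_pos hC (Real.exp_pos _)
    linarith
  have hbd : ∀ z : ℂ, max A 1 < z.im → ‖f z‖ ≤ C / c := by
    intro z hz
    have hz1 : 1 ≤ z.im := ((le_max_right _ _).trans_lt hz).le
    have hz0 : 0 < z.im := lt_of_lt_of_le one_pos hz1
    have hzA : A ≤ z.im := ((le_max_left _ _).trans_lt hz).le
    have h3 := hlow z hzA
    have h4 := hb z hz1
    rw [hf1 z hz0, norm_smul, norm_inv]
    set e := Real.exp (-(2 * Real.pi * ((p : ℝ) / 24) * z.im)) with he
    have he0 : 0 < e := Real.exp_pos _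
    have h5 : 0 < c * e := by positivity
    calc ‖ModularForm.eta z ^ p‖⁻¹ * ‖g z‖ ≤ (c * e)⁻¹ * (C * e) :=
          mul_le_mul (inv_anti₀ h5 h3) h4 (norm_nonneg _) (by positivity)
      _ = C / c := by field_simp
  have hdF := diffOn_cF hh0 hfper hfd hbd
  set ρ : ℝ := Real.exp (-2 * Real.pi * (1 / 2) / h) with hρ
  have hρ1 : ρ < 1 := by
    rw [hρ, Real.exp_lt_one_iff]
    apply div_neg_of_neg_of_pos _ hh0
    linarith
  have hdom : ∀ z, z ∈ Metric.ball (0 : ℂ) 1 → ∃ w, w ∈ Metric.closedBall (0 : ℂ) ρ ∧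
      ‖cF h f z‖ ≤ ‖cF h f w‖ := by
    intro z hz
    rw [mem_ball_zero_iff] at hz
    by_cases hz0 : z = 0
    · exact ⟨0, by simp [(Real.exp_pos _).le, hρ], by rw [hz0]⟩
    · have hτ : 0 < (Function.Periodic.invQParam h z).im := by
        have h3 := (Function.Periodic.norm_qParam_lt_iff hh0 0 (Function.Periodic.invQParam h z)).mp
          (by rw [Function.Periodic.qParam_right_inv hh0.ne' hz0]; simpa using hz)
        exact h3
      obtain ⟨γ, hγ⟩ := ModularGroup.exists_smul_mem_fd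
        (⟨Function.Periodic.invQParam h z, hτ⟩ : UpperHalfPlane)
      set τ' := γ • (⟨Function.Periodic.invQParam h z, hτ⟩ : UpperHalfPlane) with hτ'
      refine ⟨Function.Periodic.qParam h τ', ?_, ?_⟩
      · rw [mem_closedBall_zero_iff]
        apply ((Function.Periodic.norm_qParam_lt_iff hh0 (1 / 2) τ').mpr _).le
        have h4 := ModularGroup.three_le_four_mul_im_sq_of_mem_fd hγ
        have h5 : 0 < τ'.im := τ'.im_pos
        have h6 : (τ' : ℂ).im = τ'.im := rfl
        rw [h6]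
        nlinarith
      · rw [eq_cF hh0.ne' hfper, cF_ne hz0, huf τ']
        have h7 := huf ⟨Function.Periodic.invQParam h z, hτ⟩
        have h8 : ‖f (Function.Periodic.invQParam h z)‖ =
          u ⟨Function.Periodic.invQParam h z, hτ⟩ := h7
        rw [h8, hτ', inv_SL hT hS]
  have : UniformConvexSpace E := by
    let _ := InnerProductSpace.rclikeToReal ℂ E
    infer_instance
  have hconst := Complex.eq_const_of_exists_le hdF (Real.exp_pos _).le hρ1 hdom
  refine ⟨cF h f 0, fun τ hτ ↦ ?_⟩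
  have h3 : Function.Periodic.qParam h τ ∈ Metric.ball (0 : ℂ) 1 := by
    rw [mem_ball_zero_iff]
    exact Function.Periodic.norm_qParam_lt_one hh0 hτ
  have h4 := hconst h3
  rw [eq_cF hh0.ne' hfper, hf1 τ hτ] at h4
  simp only [Function.const] at h4
  rw [← h4, smul_smul, mul_inv_cancel₀ (pow_ne_zero _ (hη τ hτ)), one_smul]

open Y1 in
theorem eta_fast {E : Type*} [NormedAddCommGroup E] [NormedSpace ℂ E] {v : E} {p : ℕ} {M C : ℝ}
    (hM : (p : ℝ) / 24 < M)
    (h : ∀ τ : ℂ, 1 ≤ τ.im →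
      ‖ModularForm.eta τ ^ p • v‖ ≤ C * Real.exp (-(2 * Real.pi * M * τ.im))) : v = 0 := by
  have hpi := Real.pi_pos
  obtain ⟨A, c, hc, hA, hlow⟩ := eta_low p
  by_contra hv
  have hv' : 0 < ‖v‖ := norm_pos_iff.mpr hv
  have key : ∀ y : ℝ, max A 1 ≤ y →
      c * ‖v‖ ≤ C * Real.exp (-(2 * Real.pi * (M - (p : ℝ) / 24) * y)) := by
    intro y hy
    have h1 : ((y : ℂ) * Complex.I).im = y := by simp
    have h3 := hlow (y * Complex.I) (by rw [h1]; exact (le_max_left _ _).trans hy)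
    have h4 := h (y * Complex.I) (by rw [h1]; exact (le_max_right _ _).trans hy)
    rw [h1] at h3 h4
    rw [norm_smul] at h4
    have h5 := (mul_le_mul_of_nonneg_right h3 hv'.le).trans h4
    have h6 : Real.exp (-(2 * Real.pi * M * y)) =
        Real.exp (-(2 * Real.pi * (M - (p : ℝ) / 24) * y)) *
          Real.exp (-(2 * Real.pi * ((p : ℝ) / 24) * y)) := by
      rw [← Real.exp_add]; congr 1; ring
    rw [h6] at h5
    have h7 := Real.exp_pos (-(2 * Real.pi * ((p : ℝ) / 24) * y))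
    have h8 : (c * ‖v‖) * Real.exp (-(2 * Real.pi * ((p : ℝ) / 24) * y)) ≤
        (C * Real.exp (-(2 * Real.pi * (M - (p : ℝ) / 24) * y))) *
          Real.exp (-(2 * Real.pi * ((p : ℝ) / 24) * y)) := by
      linarith
    exact le_of_mul_le_mul_right h8 h7
  have hpos : 0 < 2 * Real.pi * (M - (p : ℝ) / 24) := by
    apply mul_pos (by positivity); linarith
  have hlim : Tendsto (fun y : ℝ ↦ C * Real.exp (-(2 * Real.pi * (M - (p : ℝ) / 24) * y))) atTop
      (𝓝 0) := by
    have h1 : Tendsto (fun y : ℝ ↦ 2 * Real.pi * (M - (p : ℝ) / 24) * y) atTop atTop :=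
      tendsto_id.const_mul_atTop hpos
    have h2 := (Real.tendsto_exp_atBot.comp (tendsto_neg_atTop_atBot.comp h1)).const_mul C
    simpa using h2
  have h9 : c * ‖v‖ ≤ 0 := ge_of_tendsto hlim (by
    filter_upwards [eventually_ge_atTop (max A 1)] with y hy
    exact key y hy)
  have h10 : 0 < c * ‖v‖ := by positivity
  linarith

end Pool.Agent.Results.MP_386e47_ag.SpecialCycles
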