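import Pool.Agent.Lib.SPX.L1

/-! Row Y3: the case of equality in the inequality of Korkine and Zolotarev. -/

namespace Pool.Agent.Results.MP_386e47_ag.SpecialCycles

namespace Y3x

/-- The numerical end of the case of equality. -/
theorem num {a u m y : ℝ} (hu : u * (1 - m ^ 2) = 2 / 3) (hy : y ^ 2 = 1 - u)
    (hy1 : 1 / 3 ≤ y) (hy2 : y ≤ 1 / 2) (hm : 0 ≤ m) (hm2 : m ≤ 1 / 2) (hau : a ≤ u)
    (h : 1 ≤ (1 - 2 * y) ^ 2 + (1 - m) ^ 2 * a + 2 / 3) :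
    (a = 3 / 4 ∧ y = 1 / 2 ∧ m = 1 / 3) ∨ (a = 8 / 9 ∧ m = 1 / 2) := by
  have e1 : u = (1 - y) * (1 + y) := by linarith
  have hD : 0 ≤ (1 - m) ^ 2 * (u - a) := mul_nonneg (sq_nonneg _) (by linarith)
  have e2 : (1 - 2 * y) ^ 2 + (1 - m) ^ 2 * u + 2 / 3 - 1 =
      2 * (1 - y) * ((1 - y) - m * (1 + y)) := by
    rw [← hu, e1]
    ring
  have e3 : (1 - m) ^ 2 * (u - a) ≤ 2 * (1 - y) * ((1 - y) - m * (1 + y)) := by
    rw [← e2]
    linarith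
  have e4 : 0 < 2 * (1 - y) := by linarith
  have e5 : 0 ≤ (1 - y) - m * (1 + y) := nonneg_of_mul_nonneg_right (hD.trans e3) e4
  have e6 : (m * (1 + y)) ^ 2 ≤ (1 - y) ^ 2 :=
    sq_le_sq' (by nlinarith) (by linarith)
  have e7 : m ^ 2 * ((1 - y) * (1 + y)) = 1 / 3 - y ^ 2 := by
    have := hu
    rw [e1] at this
    linarith
  have e8 : (1 / 3 - y ^ 2) * (1 + y) ≤ (1 - y) ^ 3 := by
    have h6 : (m * (1 + y)) ^ 2 * (1 - y) ≤ (1 - y) ^ 2 * (1 - y) :=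
      mul_le_mul_of_nonneg_right e6 (by linarith)
    rw [← e7]
    linarith
  have e9 : 0 ≤ (3 * y - 1) * (2 * y - 1) := by
    have : (1 - y) ^ 3 - (1 / 3 - y ^ 2) * (1 + y) = 2 / 3 * ((3 * y - 1) * (2 * y - 1)) := by
      ring
    linarith
  have e10 : (3 * y - 1) * (2 * y - 1) ≤ 0 :=
    mul_nonpos_of_nonneg_of_nonpos (by linarith) (by linarith)
  have key : (1 - m) ^ 2 * (u - a) = 0 → a = u := fun h0 ↦ by
    have h1 : (1 - m) ^ 2 ≠ 0 := by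
      have : (0 : ℝ) < (1 - m) ^ 2 := by
        have : 0 < 1 - m := by linarith
        positivity
      exact this.ne'
    rcases mul_eq_zero.1 h0 with h2 | h2
    · exact absurd h2 h1
    · linarith
  rcases mul_eq_zero.1 (le_antisymm e10 e9) with hz | hz
  · right
    have y1 : y = 1 / 3 := by linarith
    subst y1
    have u1 : u = 8 / 9 := by linarith
    subst u1
    have m1 : m = 1 / 2 := by nlinarith
    refine ⟨key (le_antisymm ?_ hD), m1⟩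
    subst m1
    linarith
  · left
    have y1 : y = 1 / 2 := by linarith
    subst y1
    have u1 : u = 3 / 4 := by linarith
    subst u1
    have m1 : m = 1 / 3 := by
      have h0 : (m - 1 / 3) * (m + 1 / 3) = 0 := by linarith
      rcases mul_eq_zero.1 h0 with h1 | h1 <;> linarith
    refine ⟨key (le_antisymm ?_ hD), rfl, m1⟩
    subst m1
    linarith

theorem half {x : ℝ} (h : |x| = 1 / 2) : ∃ e : ℤ, x + e = 1 / 2 := by
  rcases abs_cases x with ⟨h1, -⟩ | ⟨h1, -⟩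
  · exact ⟨0, by push_cast; linarith⟩
  · exact ⟨1, by push_cast; linarith⟩

end Y3x

theorem kze {a μ ν w : ℝ} (ha : 0 < a)
    (h1 : ∀ x : ℤ, 1 ≤ (x + μ) ^ 2 + a)
    (h2 : ∀ x y : ℤ, 1 ≤ (x + y * μ + ν) ^ 2 + (y + w) ^ 2 * a + 2 / 3)
    (h3 : ∀ y : ℤ, a ≤ (y + w) ^ 2 * a + 2 / 3) :
    (a = 3 / 4 ∧ (∃ x : ℤ, (x : ℝ) + μ = 1 / 2) ∧ ∃ y x : ℤ,
      ((y : ℝ) + w = 1 / 3 ∨ (y : ℝ) + w = -(1 / 3)) ∧ (x : ℝ) + y * μ + ν = 1 / 2) ∨
    (a = 8 / 9 ∧ ∃ y : ℤ, (y : ℝ) + w = 1 / 2) := by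
  obtain ⟨y0, hW⟩ := L1x.near w
  obtain ⟨x0, hM⟩ := L1x.near μ
  obtain ⟨p0, hP⟩ := L1x.near (y0 * μ + ν)
  obtain ⟨W, hWd⟩ : ∃ W : ℝ, W = (y0 : ℝ) + w := ⟨_, rfl⟩
  obtain ⟨M, hMd⟩ : ∃ M : ℝ, M = (x0 : ℝ) + μ := ⟨_, rfl⟩
  obtain ⟨P, hPd⟩ : ∃ P : ℝ, P = (p0 : ℝ) + (y0 * μ + ν) := ⟨_, rfl⟩
  rw [← hWd] at hW
  rw [← hMd] at hM
  rw [← hPd] at hP
  have hW2 : W ^ 2 ≤ 1 / 4 := by
    have h := sq_le_sq' (by linarith [abs_nonneg W]) hW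
    rw [sq_abs] at h
    linarith
  have hM2 : M ^ 2 ≤ 1 / 4 := by
    have h := sq_le_sq' (by linarith [abs_nonneg M]) hM
    rw [sq_abs] at h
    linarith
  have e1 : 1 ≤ M ^ 2 + a := by
    have h := h1 x0
    rwa [← hMd] at h
  have e3 : a ≤ W ^ 2 * a + 2 / 3 := by
    have h := h3 y0
    rwa [← hWd] at h
  have e2 : 1 ≤ P ^ 2 + W ^ 2 * a + 2 / 3 := by
    have h := h2 p0 y0
    rw [← hWd, show (p0 : ℝ) + y0 * μ + ν = P by rw [hPd]; ring] at h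
    exact h
  have hpos : 0 < 1 - W ^ 2 := by linarith
  obtain ⟨u, hu⟩ : ∃ u : ℝ, u * (1 - W ^ 2) = 2 / 3 := ⟨2 / 3 / (1 - W ^ 2), by field_simp⟩
  have hau : a ≤ u := by
    by_contra hcon
    push Not at hcon
    have := mul_lt_mul_of_pos_right hcon hpos
    linarith
  have hu1 : 3 / 4 ≤ u := by linarith
  have hu2 : u ≤ 8 / 9 := by nlinarith
  obtain ⟨y, hy0, hy⟩ : ∃ y : ℝ, 0 ≤ y ∧ y ^ 2 = 1 - u :=
    ⟨√(1 - u), Real.sqrt_nonneg _, Real.sq_sqrt (by linarith)⟩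
  have hy1 : 1 / 3 ≤ y := by
    by_contra hcon
    push Not at hcon
    nlinarith
  have hy2 : y ≤ 1 / 2 := by
    by_contra hcon
    push Not at hcon
    nlinarith
  have hM' : y ≤ |M| := by
    refine abs_le_of_sq_le_sq' ?_ (abs_nonneg M) |>.2
    rw [sq_abs]
    linarith
  have hP' : y ≤ |P| := by
    refine abs_le_of_sq_le_sq' ?_ (abs_nonneg P) |>.2
    rw [sq_abs]
    have h4 : W ^ 2 * a ≤ W ^ 2 * u := mul_le_mul_of_nonneg_left hau (sq_nonneg W)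
    have h5 : W ^ 2 * u + 2 / 3 = u := by rw [← hu]; ring
    linarith
  obtain ⟨σ, hσ, hσW⟩ : ∃ σ : ℤ, |(σ : ℝ)| = 1 ∧ (W + σ) ^ 2 = (1 - |W|) ^ 2 := by
    rcases abs_cases W with ⟨h4, h5⟩ | ⟨h4, h5⟩
    · refine ⟨-1, by norm_num, ?_⟩
      rw [h4]
      push_cast
      ring
    · refine ⟨1, by norm_num, ?_⟩
      rw [h4]
      push_cast
      ring
  have hN : |(σ : ℝ) * M| = |M| := by rw [abs_mul, hσ, one_mul]
  obtain ⟨e, he⟩ := L1x.shift hP (hN.le.trans hM) hP' (hM'.trans hN.ge)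
  have e4 := h2 (p0 + σ * x0 + e) (y0 + σ)
  have e5 : ((p0 + σ * x0 + e : ℤ) : ℝ) + ((y0 + σ : ℤ) : ℝ) * μ + ν = P + σ * M + e := by
    rw [hPd, hMd]
    push_cast
    ring
  have e6 : ((y0 + σ : ℤ) : ℝ) + w = W + σ := by
    rw [hWd]
    push_cast
    ring
  rw [e5, e6, hσW] at e4
  rcases Y3x.num (m := |W|) (by rw [sq_abs]; exact hu) hy hy1 hy2 (abs_nonneg W) hW hau
    (by linarith) with ⟨ha1, hy3, hW3⟩ | ⟨ha1, hW3⟩
  · left
    refine ⟨ha1, ?_, ?_⟩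
    · obtain ⟨e, he⟩ := Y3x.half (le_antisymm hM (hy3 ▸ hM'))
      exact ⟨x0 + e, by push_cast; linarith⟩
    · obtain ⟨e, he⟩ := Y3x.half (le_antisymm hP (hy3 ▸ hP'))
      refine ⟨y0, p0 + e, ?_, by push_cast; linarith⟩
      rw [← hWd]
      rcases abs_cases W with ⟨h4, -⟩ | ⟨h4, -⟩
      · exact Or.inl (by linarith)
      · exact Or.inr (by linarith)
  · right
    refine ⟨ha1, ?_⟩
    obtain ⟨e, he⟩ := Y3x.half hW3
    exact ⟨y0 + e, by push_cast; linarith⟩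

end Pool.Agent.Results.MP_386e47_ag.SpecialCycles
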