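import Pool.Agent.Lib.SPY.Y3
import Pool.Agent.Lib.SPX.L2

/-! Row Y4: the equality in the Korkine-Zolotarev inequality for Schur complements. -/

namespace Pool.Agent.Results.MP_386e47_ag.SpecialCycles

open Finset

namespace Y4x

/-- The first coordinate split off. -/
theorem QS_cons {n : ℕ} {B : Matrix (Fin (n + 1 + 1)) (Fin (n + 1 + 1)) ℤ}
    (hB : B.IsSymm) (s : ℝ) (v : Fin (n + 1) → ℝ) :
    (B 0 0 : ℝ) * QS B (Fin.cons s v : Fin (n + 1 + 1) → ℝ) =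
      (B 0 0 * s + ∑ j, (B 0 j.succ : ℝ) * v j) ^ 2 + QS (sch B) v := by
  rw [QS_sch hB, sum_cons (fun j ↦ (B 0 j : ℝ))]
  have h3 : (fun j : Fin (n + 1) ↦ (Fin.cons s v : Fin (n + 1 + 1) → ℝ) j.succ) = v := by
    funext j
    rw [Fin.cons_succ]
  rw [h3]

/-- The value at an integral vector with a coordinate equal to one. -/
theorem vec_cons {n : ℕ} {X : Set (Matrix (Fin (n + 1 + 1)) (Fin (n + 1 + 1)) ℤ)}
    (hX : Good X) {m : ℤ} (hmin : ∀ B ∈ X, m ≤ B 0 0)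
    {B : Matrix (Fin (n + 1 + 1)) (Fin (n + 1 + 1)) ℤ} (hB : B ∈ X) (s : ℤ)
    (v : Fin (n + 1) → ℤ) (j : Fin (n + 1)) (hj : v j = 1) :
    (m : ℝ) ≤ QS B (Fin.cons (s : ℝ) (fun i ↦ (v i : ℝ)) : Fin (n + 1 + 1) → ℝ) := by
  obtain ⟨B', hB', h⟩ := hX.vec hB (Fin.cons s v : Fin (n + 1 + 1) → ℤ) j.succ (by
      rw [Fin.cons_succ, hj])
  have h1 : (fun j : Fin (n + 1 + 1) ↦ (((Fin.cons s v : Fin (n + 1 + 1) → ℤ) j : ℤ) : ℝ)) =
      (Fin.cons (s : ℝ) (fun i ↦ (v i : ℝ)) : Fin (n + 1 + 1) → ℝ) := by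
    funext j
    refine Fin.cases ?_ (fun j' ↦ ?_) j
    · simp
    · simp
  rw [h1] at h
  rw [← h]
  exact_mod_cast hmin B' hB'

end Y4x

theorem Good.kzu {n : ℕ} {X : Set (Matrix (Fin (n + 1 + 1 + 1)) (Fin (n + 1 + 1 + 1)) ℤ)}
    (hX : Good X) {m m' : ℤ} (hmin : ∀ B ∈ X, m ≤ B 0 0)
    (hmin' : ∀ C ∈ schSet X m, m' ≤ C 0 0)
    {B : Matrix (Fin (n + 1 + 1 + 1)) (Fin (n + 1 + 1 + 1)) ℤ} (hB : B ∈ X) (hm : B 0 0 = m)
    (hm' : SpecialCycles.sch B 0 0 = m') {u : Fin (n + 1) → ℤ} {j : Fin (n + 1)} (hu : u j = 1)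
    (hD : 3 * QS (SpecialCycles.sch (SpecialCycles.sch B)) (fun i ↦ (u i : ℝ)) =
      2 * (m : ℝ) ^ 2 * m') :
    (4 * m' = 3 * m ^ 2 ∧ (∃ x : ℤ, 2 * (m * x + B 0 1) = m) ∧ ∃ y x : ℤ,
      (3 * (m' * y + ∑ i, u i * SpecialCycles.sch B 0 i.succ) = m' ∨
        3 * (m' * y + ∑ i, u i * SpecialCycles.sch B 0 i.succ) = -m') ∧
      2 * (m * x + y * B 0 1 + ∑ i, u i * B 0 i.succ.succ) = m) ∨
    (9 * m' = 8 * m ^ 2 ∧ ∃ y : ℤ, 2 * (m' * y + ∑ i, u i * SpecialCycles.sch B 0 i.succ) = m') := by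
  have gX' := hX.sch hmin
  have hC : SpecialCycles.sch B ∈ schSet X m := ⟨B, hB, hm, rfl⟩
  set C := SpecialCycles.sch B with hCdef
  have pm : (0 : ℝ) < m := by rw [← hm]; exact_mod_cast hX.pos B hB
  have pm' : (0 : ℝ) < m' := by rw [← hm']; exact_mod_cast gX'.pos C hC
  obtain ⟨q, hq⟩ : ∃ q : ℝ, q = QS (SpecialCycles.sch C) (fun i ↦ (u i : ℝ)) := ⟨_, rfl⟩
  obtain ⟨wC, hwC⟩ : ∃ wC : ℤ, wC = ∑ i, u i * C 0 i.succ := ⟨_, rfl⟩
  obtain ⟨nB, hnB⟩ : ∃ nB : ℤ, nB = ∑ i, u i * B 0 i.succ.succ := ⟨_, rfl⟩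
  rw [← hq] at hD
  have hq23 : q / (m' * m ^ 2) = 2 / 3 := by
    rw [div_eq_div_iff (by positivity) (by norm_num)]
    linarith
  -- the form `C` at `(y, u)`
  have hCy : ∀ y : ℝ, QS C (Fin.cons y (fun i ↦ (u i : ℝ)) : Fin (n + 1 + 1) → ℝ) =
      ((m' * y + wC) ^ 2 + q) / m' := by
    intro y
    have h5 := Y4x.QS_cons (gX'.symm C hC) y (fun i ↦ (u i : ℝ))
    have h6 : ∑ j, (C 0 j.succ : ℝ) * (u j : ℝ) = wC := by
      rw [hwC]
      push_cast
      exact Finset.sum_congr rfl fun i _ ↦ mul_comm _ _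
    rw [hm', h6, ← hq] at h5
    rw [← h5]
    field_simp
  -- the form `B` at `(x, y, u)`
  have hBxy : ∀ x y : ℝ, (m : ℝ) * QS B (Fin.cons x (Fin.cons y (fun i ↦ (u i : ℝ)) :
      Fin (n + 1 + 1) → ℝ) : Fin (n + 1 + 1 + 1) → ℝ) =
      (m * x + y * B 0 1 + nB) ^ 2 + ((m' * y + wC) ^ 2 + q) / m' := by
    intro x y
    have h5 := Y4x.QS_cons (hX.symm B hB) x (Fin.cons y (fun i ↦ (u i : ℝ)) :
      Fin (n + 1 + 1) → ℝ)
    have h6 : ∑ j : Fin (n + 1 + 1), (B 0 j.succ : ℝ) * (Fin.cons y (fun i ↦ (u i : ℝ)) :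
        Fin (n + 1 + 1) → ℝ) j = y * B 0 1 + nB := by
      rw [sum_cons (fun j ↦ (B 0 j.succ : ℝ)), hnB]
      have e1 : (0 : Fin (n + 1 + 1)).succ = 1 := rfl
      rw [e1]
      push_cast
      rw [mul_comm]
      congr 1
      exact Finset.sum_congr rfl fun i _ ↦ mul_comm _ _
    rw [hm, h6, ← hCdef, hCy] at h5
    rw [h5]
    ring
  have key := SpecialCycles.kze (a := (m' : ℝ) / m ^ 2)
    (μ := (B 0 1 : ℝ) / m) (ν := (nB : ℝ) / m) (w := (wC : ℝ) / m')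
    (by positivity)
    (by
      intro x
      have h1 := hX.two hmin hB x
      have h2 := QS_two (hX.symm B hB) (x : ℝ)
      rw [hm, ← hCdef, hm'] at h2
      have h3 : (m : ℝ) ^ 2 ≤ (m * x + B 0 1) ^ 2 + m' := by
        rw [← h2, pow_two]
        exact mul_le_mul_of_nonneg_left h1 pm.le
      have h4 : ((x : ℝ) + B 0 1 / m) ^ 2 + m' / m ^ 2 = ((m * x + B 0 1) ^ 2 + m') / m ^ 2 := by
        field_simp
      rw [h4, le_div_iff₀ (by positivity), one_mul]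
      exact h3)
    (by
      intro x y
      have h1 := Y4x.vec_cons hX hmin hB x (Fin.cons y u : Fin (n + 1 + 1) → ℤ) j.succ
        (by rw [Fin.cons_succ, hu])
      have h2 : (fun i : Fin (n + 1 + 1) ↦ (((Fin.cons y u : Fin (n + 1 + 1) → ℤ) i : ℤ) : ℝ)) =
          (Fin.cons (y : ℝ) (fun i ↦ (u i : ℝ)) : Fin (n + 1 + 1) → ℝ) := by
        funext i
        refine Fin.cases ?_ (fun i' ↦ ?_) i
        · simp
        · simp
      rw [h2] at h1
      have h3 : (m : ℝ) ^ 2 ≤ (m * x + y * B 0 1 + nB) ^ 2 + ((m' * y + wC) ^ 2 + q) / m' := by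
        rw [← hBxy, pow_two]
        exact mul_le_mul_of_nonneg_left h1 pm.le
      have h4 : ((x : ℝ) + y * (B 0 1 / m) + nB / m) ^ 2 + (y + wC / m') ^ 2 * (m' / m ^ 2) +
          2 / 3 = ((m * x + y * B 0 1 + nB) ^ 2 + ((m' * y + wC) ^ 2 + q) / m') / m ^ 2 := by
        rw [← hq23]
        field_simp
        ring
      rw [h4, le_div_iff₀ (by positivity), one_mul]
      exact h3)
    (by
      intro y
      have h1 := Y4x.vec_cons gX' hmin' hC y u j hu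
      rw [hCy, le_div_iff₀ pm'] at h1
      have h4 : ((y : ℝ) + wC / m') ^ 2 * (m' / m ^ 2) + 2 / 3 =
          ((m' * y + wC) ^ 2 + q) / (m' * m ^ 2) := by
        rw [← hq23]
        field_simp
      have h7 : (m' : ℝ) / m ^ 2 = m' * m' / (m' * m ^ 2) := by
        field_simp
      rw [h4, h7]
      exact div_le_div_of_nonneg_right h1 (by positivity))
  rw [← hwC, ← hnB]
  rcases key with ⟨ka, ⟨x1, kx⟩, y, x, kw, kν⟩ | ⟨ka, y, kw⟩
  · left
    have ka' : 4 * (m' : ℝ) = 3 * m ^ 2 := by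
      rw [div_eq_div_iff (by positivity) (by norm_num)] at ka
      linarith
    refine ⟨by exact_mod_cast ka', ⟨x1, ?_⟩, y, x, ?_, ?_⟩
    · have h : 2 * ((m : ℝ) * x1 + B 0 1) = m := by
        have h' : (m : ℝ) * ((x1 : ℝ) + B 0 1 / m) = m * x1 + B 0 1 := by field_simp
        rw [← h', kx]
        ring
      exact_mod_cast h
    · have h' : (m' : ℝ) * ((y : ℝ) + wC / m') = m' * y + wC := by field_simp
      rcases kw with kw | kw
      · left
        have h : 3 * ((m' : ℝ) * y + wC) = m' := by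
          rw [← h', kw]
          ring
        exact_mod_cast h
      · right
        have h : 3 * ((m' : ℝ) * y + wC) = -m' := by
          rw [← h', kw]
          ring
        exact_mod_cast h
    · have h : 2 * ((m : ℝ) * x + y * B 0 1 + nB) = m := by
        have h' : (m : ℝ) * ((x : ℝ) + y * (B 0 1 / m) + nB / m) = m * x + y * B 0 1 + nB := by
          field_simp
        rw [← h', kν]
        ring
      exact_mod_cast h
  · right
    have ka' : 9 * (m' : ℝ) = 8 * m ^ 2 := by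
      rw [div_eq_div_iff (by positivity) (by norm_num)] at ka
      linarith
    refine ⟨by exact_mod_cast ka', y, ?_⟩
    have h' : (m' : ℝ) * ((y : ℝ) + wC / m') = m' * y + wC := by field_simp
    have h : 2 * ((m' : ℝ) * y + wC) = m' := by
      rw [← h', kw]
      ring
    exact_mod_cast h

end Pool.Agent.Results.MP_386e47_ag.SpecialCycles
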