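import Pool.Agent.Lib.SPY.Y4

/-! Row Y5: extremal sets of quaternary forms contain the root lattice `A_3` as first block. -/

namespace Pool.Agent.Results.MP_386e47_ag.SpecialCycles

open Finset

namespace Y5x

theorem two_entries {D : Matrix (Fin 2) (Fin 2) ℤ} (hD : D.IsSymm) (a b c e : ℤ) :
    ((!![a, b; c, e] : Matrix (Fin 2) (Fin 2) ℤ).transpose * D * !![a, b; c, e]) 0 0 =
      a ^ 2 * D 0 0 + 2 * a * c * D 0 1 + c ^ 2 * D 1 1 ∧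
    ((!![a, b; c, e] : Matrix (Fin 2) (Fin 2) ℤ).transpose * D * !![a, b; c, e]) 0 1 =
      a * b * D 0 0 + (a * e + b * c) * D 0 1 + c * e * D 1 1 ∧
    ((!![a, b; c, e] : Matrix (Fin 2) (Fin 2) ℤ).transpose * D * !![a, b; c, e]) 1 1 =
      b ^ 2 * D 0 0 + 2 * b * e * D 0 1 + e ^ 2 * D 1 1 := by
  have h := hD.apply 0 1
  refine ⟨?_, ?_, ?_⟩ <;>
  · simp [Matrix.mul_apply, Fin.sum_univ_two, h]
    ring

theorem shift2 {p d : ℤ} (hd : 0 < d) : ∃ t : ℤ, |2 * (p + t * d)| ≤ d := by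
  refine ⟨-((2 * p + d) / (2 * d)), ?_⟩
  have h1 := Int.emod_add_mul_ediv (2 * p + d) (2 * d)
  have h2 := Int.emod_nonneg (2 * p + d) (show 2 * d ≠ 0 by omega)
  have h3 := Int.emod_lt_of_pos (2 * p + d) (show 0 < 2 * d by omega)
  rw [abs_le]
  constructor <;> nlinarith

theorem tr2 {X : Set (Matrix (Fin (0 + 1 + 1)) (Fin (0 + 1 + 1)) ℤ)} (hX : Good X)
    {D : Matrix (Fin (0 + 1 + 1)) (Fin (0 + 1 + 1)) ℤ} (hD : D ∈ X) (a b c e : ℤ)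
    (hu : IsUnit (a * e - b * c)) : ∃ E ∈ X,
      E 0 0 = a ^ 2 * D 0 0 + 2 * a * c * D 0 1 + c ^ 2 * D 1 1 ∧
      E 0 1 = a * b * D 0 0 + (a * e + b * c) * D 0 1 + c * e * D 1 1 ∧
      E 1 1 = b ^ 2 * D 0 0 + 2 * b * e * D 0 1 + e ^ 2 * D 1 1 :=
  ⟨_, hX.gl D hD (!![a, b; c, e] : Matrix (Fin 2) (Fin 2) ℤ) (by
    rw [Matrix.det_fin_two_of]; exact hu), two_entries (hX.symm D hD) a b c e⟩

theorem pair {X : Set (Matrix (Fin (0 + 1 + 1)) (Fin (0 + 1 + 1)) ℤ)} (hX : Good X) {d : ℤ}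
    (hmin : ∀ D ∈ X, d ≤ D 0 0) {D : Matrix (Fin (0 + 1 + 1)) (Fin (0 + 1 + 1)) ℤ} (hD : D ∈ X)
    (h0 : D 0 0 = d) (hs : 4 * (D 0 0 * D 1 1 - D 0 1 * D 0 1) = 3 * d ^ 2) :
    ∃ D' ∈ X, D' 0 0 = d ∧ D' 1 1 = d ∧ 2 * D' 0 1 = d := by
  have hd : 0 < d := by
    rw [← h0]
    exact hX.pos D hD
  obtain ⟨t, ht⟩ := shift2 (p := D 0 1) hd
  obtain ⟨E, m1, e00, e01, e11⟩ := tr2 hX hD 1 t 0 1 (by simp)
  have f00 : E 0 0 = d := by rw [← h0, e00]; ring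
  have f01 : E 0 1 = D 0 1 + t * d := by rw [← h0, e01]; ring
  have f11 : E 1 1 = t ^ 2 * D 0 0 + 2 * t * D 0 1 + D 1 1 := by rw [e11]; ring
  have g1 : d ≤ E 1 1 := by
    obtain ⟨F, m2, e2, -, -⟩ := tr2 hX m1 0 1 1 0 (by simp)
    have e3 : F 0 0 = E 1 1 := by rw [e2]; ring
    rw [← e3]
    exact hmin F m2
  rw [← f01] at ht
  have hs2 : 4 * (d * E 1 1 - E 0 1 * E 0 1) = 3 * d ^ 2 := by
    rw [f11, f01]
    rw [h0] at hs ⊢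
    linear_combination hs
  have hsq : (2 * E 0 1) ^ 2 ≤ d ^ 2 := by
    rw [← sq_abs (2 * E 0 1)]
    exact pow_le_pow_left₀ (abs_nonneg _) ht 2
  have g2 : E 1 1 ≤ d := by
    have : d * E 1 1 ≤ d * d := by nlinarith
    exact le_of_mul_le_mul_left this hd
  have g3 : E 1 1 = d := le_antisymm g2 g1
  rw [g3] at hs2
  have h4 : (2 * E 0 1 - d) * (2 * E 0 1 + d) = 0 := by linear_combination -hs2
  rcases mul_eq_zero.1 h4 with h5 | h5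
  · exact ⟨E, m1, f00, g3, by linarith⟩
  · obtain ⟨F, m4, q00, q01, q11⟩ := tr2 hX m1 1 0 0 (-1) (by simp)
    refine ⟨F, m4, ?_, ?_, ?_⟩
    · rw [q00, f00]; ring
    · rw [q11, g3]; ring
    · rw [q01]; linarith

theorem four_entries {B : Matrix (Fin 4) (Fin 4) ℤ} (hB : B.IsSymm) (p q r s : ℤ) :
    ((!![1, p, q, 0; 0, 1, r, 0; 0, 0, s, 0; 0, 0, 0, 1] : Matrix (Fin 4) (Fin 4) ℤ).transpose * B *
      !![1, p, q, 0; 0, 1, r, 0; 0, 0, s, 0; 0, 0, 0, 1]) 0 0 = B 0 0 ∧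
    ((!![1, p, q, 0; 0, 1, r, 0; 0, 0, s, 0; 0, 0, 0, 1] : Matrix (Fin 4) (Fin 4) ℤ).transpose * B *
      !![1, p, q, 0; 0, 1, r, 0; 0, 0, s, 0; 0, 0, 0, 1]) 0 1 = p * B 0 0 + B 0 1 ∧
    ((!![1, p, q, 0; 0, 1, r, 0; 0, 0, s, 0; 0, 0, 0, 1] : Matrix (Fin 4) (Fin 4) ℤ).transpose * B *
      !![1, p, q, 0; 0, 1, r, 0; 0, 0, s, 0; 0, 0, 0, 1]) 0 2 = q * B 0 0 + r * B 0 1 + s * B 0 2 ∧
    ((!![1, p, q, 0; 0, 1, r, 0; 0, 0, s, 0; 0, 0, 0, 1] : Matrix (Fin 4) (Fin 4) ℤ).transpose * B *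
      !![1, p, q, 0; 0, 1, r, 0; 0, 0, s, 0; 0, 0, 0, 1]) 1 1 =
      p ^ 2 * B 0 0 + 2 * p * B 0 1 + B 1 1 ∧
    ((!![1, p, q, 0; 0, 1, r, 0; 0, 0, s, 0; 0, 0, 0, 1] : Matrix (Fin 4) (Fin 4) ℤ).transpose * B *
      !![1, p, q, 0; 0, 1, r, 0; 0, 0, s, 0; 0, 0, 0, 1]) 1 2 =
      p * q * B 0 0 + (p * r + q) * B 0 1 + p * s * B 0 2 + r * B 1 1 + s * B 1 2 ∧
    ((!![1, p, q, 0; 0, 1, r, 0; 0, 0, s, 0; 0, 0, 0, 1] : Matrix (Fin 4) (Fin 4) ℤ).transpose * B *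
      !![1, p, q, 0; 0, 1, r, 0; 0, 0, s, 0; 0, 0, 0, 1]) 2 2 =
      q ^ 2 * B 0 0 + r ^ 2 * B 1 1 + s ^ 2 * B 2 2 + 2 * q * r * B 0 1 + 2 * q * s * B 0 2 +
        2 * r * s * B 1 2 := by
  have h01 := hB.apply 0 1
  have h02 := hB.apply 0 2
  have h12 := hB.apply 1 2
  refine ⟨?_, ?_, ?_, ?_, ?_, ?_⟩ <;>
  · simp [Matrix.mul_apply, Fin.sum_univ_four, h01, h02, h12]
    try ring

theorem det4 (p q r s : ℤ) :
    (!![1, p, q, 0; 0, 1, r, 0; 0, 0, s, 0; 0, 0, 0, 1] : Matrix (Fin 4) (Fin 4) ℤ).det = s := by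
  simp [Matrix.det_succ_row_zero, Fin.sum_univ_succ, Fin.succAbove]

theorem tr4 {X : Set (Matrix (Fin (0 + 1 + 1 + 1 + 1)) (Fin (0 + 1 + 1 + 1 + 1)) ℤ)}
    (hX : Good X) {B : Matrix (Fin (0 + 1 + 1 + 1 + 1)) (Fin (0 + 1 + 1 + 1 + 1)) ℤ} (hB : B ∈ X)
    (p q r s : ℤ) (hs : IsUnit s) : ∃ E ∈ X, E 0 0 = B 0 0 ∧ E 0 1 = p * B 0 0 + B 0 1 ∧
      E 0 2 = q * B 0 0 + r * B 0 1 + s * B 0 2 ∧
      E 1 1 = p ^ 2 * B 0 0 + 2 * p * B 0 1 + B 1 1 ∧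
      E 1 2 = p * q * B 0 0 + (p * r + q) * B 0 1 + p * s * B 0 2 + r * B 1 1 + s * B 1 2 ∧
      E 2 2 = q ^ 2 * B 0 0 + r ^ 2 * B 1 1 + s ^ 2 * B 2 2 + 2 * q * r * B 0 1 +
        2 * q * s * B 0 2 + 2 * r * s * B 1 2 :=
  ⟨_, hX.gl B hB (!![1, p, q, 0; 0, 1, r, 0; 0, 0, s, 0; 0, 0, 0, 1] : Matrix (Fin 4) (Fin 4) ℤ)
    (by rw [det4]; exact hs), four_entries (hX.symm B hB) p q r s⟩

/-- The arithmetic of the entries. -/
theorem arith {m m' d b01 b02 b11 b12 b22 x₁ x y ε : ℤ} (hm : 0 < m) (hm' : 0 < m')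
    (hC : m * b11 - b01 * b01 = m')
    (hD : m' * (m * b22 - b02 * b02) - (m * b12 - b01 * b02) * (m * b12 - b01 * b02) = d)
    (hd : 3 * d = 2 * m ^ 2 * m') (h4 : 4 * m' = 3 * m ^ 2) (h1 : 2 * (m * x₁ + b01) = m)
    (h2 : 2 * (m * x + y * b01 + b02) = m) (hε : ε ^ 2 = 1)
    (h3 : 3 * (m' * y + (m * b12 - b01 * b02)) = ε * m') :
    x₁ ^ 2 * m + 2 * x₁ * b01 + b11 = m ∧
    x ^ 2 * m + y ^ 2 * b11 + b22 + 2 * x * y * b01 + 2 * x * b02 + 2 * y * b12 = m ∧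
    4 * (x₁ * x * m + (x₁ * y + x) * b01 + x₁ * b02 + y * b11 + b12) = (1 + ε) * m := by
  have h0 : (4 * m : ℤ) ≠ 0 := by positivity
  refine ⟨?_, ?_, ?_⟩
  · apply mul_left_cancel₀ h0
    linear_combination 4 * hC + h4 + (2 * (m * x₁ + b01) + m) * h1
  · -- the value on the quotient
    set C11 := (m * b22 - b02 * b02) + 2 * y * (m * b12 - b01 * b02) + y ^ 2 * m' with hC11
    have k1 : 9 * m' * C11 = (6 * m ^ 2 + m') * m' := by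
      rw [hC11]
      linear_combination 9 * hD + 3 * hd +
        (3 * (m' * y + (m * b12 - b01 * b02)) + ε * m') * h3 + m' ^ 2 * hε
    have k2 : 9 * C11 = 6 * m ^ 2 + m' := by
      have h5 : m' * (9 * C11) = m' * (6 * m ^ 2 + m') := by linear_combination k1
      exact mul_left_cancel₀ hm'.ne' h5
    have k3 : 4 * C11 = 3 * m ^ 2 := by
      have : 9 * (4 * C11) = 9 * (3 * m ^ 2) := by linear_combination 4 * k2 + h4
      exact mul_left_cancel₀ (by norm_num) this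
    apply mul_left_cancel₀ h0
    rw [hC11] at k3
    linear_combination k3 + (2 * (m * x + y * b01 + b02) + m) * h2 + 4 * y ^ 2 * hC
  · have h6 : (3 * m : ℤ) ≠ 0 := by positivity
    apply mul_left_cancel₀ h6
    linear_combination 4 * h3 + 12 * y * hC + ε * h4 +
      6 * (m * x + y * b01 + b02) * h1 + 3 * m * h2

end Y5x

open Y5x

theorem blockA3 {X : Set (Matrix (Fin (0 + 1 + 1 + 1 + 1)) (Fin (0 + 1 + 1 + 1 + 1)) ℤ)}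
    (hne : X.Nonempty) (hX : Good X) {m : ℤ} (hmin : ∀ B ∈ X, m ≤ B 0 0)
    (hM : HM X ((m : ℝ) / 2)) :
    ∃ B ∈ X, B 0 0 = m ∧ B 1 1 = m ∧ B 2 2 = m ∧ 2 * B 0 1 = m ∧ 2 * B 0 2 = m ∧
      2 * B 1 2 = m := by
  obtain ⟨B₀, hB₀, hmin0⟩ := hX.exists_min hne
  have gX' := hX.sch hmin0
  obtain ⟨C₀, hC₀, hmin'⟩ := gX'.exists_min ⟨_, B₀, hB₀, rfl, rfl⟩
  have gX'' := gX'.sch hmin'
  have pm : (0 : ℤ) < B₀ 0 0 := hX.pos B₀ hB₀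
  have pm' : (0 : ℤ) < C₀ 0 0 := gX'.pos C₀ hC₀
  have hM'' := HM.sch gX' pm' (HM.sch hX pm hM)
  have hmm := hmin B₀ hB₀
  set m₀ := B₀ 0 0 with hm₀
  set m' := C₀ 0 0 with hm'
  obtain ⟨D₀, hD₀, hmin''⟩ := gX''.exists_min ⟨_, C₀, hC₀, rfl, rfl⟩
  have pd : (0 : ℤ) < D₀ 0 0 := gX''.pos D₀ hD₀
  obtain ⟨D₁, hD₁, h1, x, hx, hq⟩ := hM'' D₀ hD₀
  have hd1 : D₁ 0 0 = D₀ 0 0 := h1 0 0 (by decide) (by decide)
  set d := D₀ 0 0 with hd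
  have pmR : (0 : ℝ) < m₀ := by exact_mod_cast pm
  have pmR' : (0 : ℝ) < m' := by exact_mod_cast pm'
  have pdR : (0 : ℝ) < d := by exact_mod_cast pd
  have hmmR : (m : ℝ) ≤ m₀ := by exact_mod_cast hmm
  -- the Hermite inequality for `D₁`
  have h2 := gX''.hermite (n := 0) hmin'' hD₁ hd1
  have h3 := QS_sch (n := 0) (gX''.symm D₁ hD₁) x
  have h4 : QS (sch D₁) (fun j : Fin (0 + 1) ↦ x j.succ) = sch D₁ 0 0 := by
    have hx1 : x 1 = 1 := hx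
    unfold QS
    simp [hx1]
  rw [h4, hd1] at h3
  have h5 := sq_nonneg (∑ j, (D₁ 0 j : ℝ) * x j)
  have hkz : ∀ D ∈ schSet (schSet X m₀) m', 2 / 3 * ((m₀ : ℝ) ^ 2 * m') ≤ D 0 0 := by
    rintro D ⟨C, ⟨B, hB, hBm, rfl⟩, hCm, rfl⟩
    exact hX.kz hmin0 hmin' hB hBm hCm
  have h6 := hkz D₁ hD₁
  rw [hd1] at h6
  -- equalities
  have h7 : (d : ℝ) * QS D₁ x ≤ d * (m' * (m₀ * (m / 2))) := mul_le_mul_of_nonneg_left hq pdR.le
  have h8 : (3 / 4 * d : ℝ) ≤ m' * (m₀ * (m / 2)) := by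
    have : (d : ℝ) * (3 / 4 * d) ≤ d * (m' * (m₀ * (m / 2))) := by nlinarith
    exact le_of_mul_le_mul_left this pdR
  have pmm : (0 : ℝ) < m' * m₀ := by positivity
  have h9 : (m₀ : ℝ) ≤ m := by
    have : (m' * m₀ : ℝ) * m₀ ≤ (m' * m₀) * m := by nlinarith
    exact le_of_mul_le_mul_left this pmm
  have hm0m : m₀ = m := le_antisymm (by exact_mod_cast h9) hmm
  have h10 : 3 * (d : ℝ) = 2 * (m₀ : ℝ) ^ 2 * m' := by
    have e : (m : ℝ) = m₀ := by rw [hm0m]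
    rw [e] at h8
    nlinarith
  have h10' : 3 * d = 2 * m₀ ^ 2 * m' := by exact_mod_cast h10
  have h11 : 4 * (sch D₁ 0 0 : ℝ) = 3 * (d : ℝ) ^ 2 := by
    have e : (m : ℝ) = m₀ := by rw [hm0m]
    rw [e] at h7
    have h12 : (d : ℝ) * (m' * (m₀ * (m₀ / 2))) = 3 / 4 * d ^ 2 := by
      linear_combination (-(d : ℝ) / 4) * h10
    nlinarith
  have h11' : 4 * (D₁ 0 0 * D₁ 1 1 - D₁ 0 1 * D₁ 0 1) = 3 * d ^ 2 := by
    have : 4 * sch D₁ 0 0 = 3 * d ^ 2 := by exact_mod_cast h11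
    exact this
  obtain ⟨D, hD, d00, d11, d01⟩ := pair gX'' hmin'' hD₁ hd1 h11'
  obtain ⟨C, hC, hCm, rfl⟩ := hD
  obtain ⟨B, hB, hBm, rfl⟩ := hC
  -- the three vectors
  have symD := gX''.symm _ (show sch (sch B) ∈ schSet (schSet X m₀) m' from
    ⟨_, ⟨B, hB, hBm, rfl⟩, hCm, rfl⟩)
  have hQ : ∀ u : Fin (0 + 1 + 1) → ℤ, QS (sch (sch B)) (fun i ↦ (u i : ℝ)) =
      (d : ℝ) * ((u 0 : ℝ) ^ 2 + u 0 * u 1 + (u 1 : ℝ) ^ 2) := by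
    intro u
    have s1 : sch (sch B) 1 0 = sch (sch B) 0 1 := symD.apply 0 1
    have e01 : 2 * (sch (sch B) 0 1 : ℝ) = d := by exact_mod_cast d01
    have e00 : (sch (sch B) 0 0 : ℝ) = d := by exact_mod_cast d00
    have e11 : (sch (sch B) 1 1 : ℝ) = d := by exact_mod_cast d11
    have e10 : (sch (sch B) 1 0 : ℝ) = sch (sch B) 0 1 := by rw [s1]
    unfold QS
    rw [Fin.sum_univ_two, Fin.sum_univ_two, Fin.sum_univ_two, e00, e11, e10]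
    linear_combination (u 0 : ℝ) * u 1 * e01
  have hQ3 : ∀ u : Fin (0 + 1 + 1) → ℤ, (u 0 : ℤ) ^ 2 + u 0 * u 1 + (u 1) ^ 2 = 1 →
      3 * QS (sch (sch B)) (fun i ↦ (u i : ℝ)) = 2 * (m₀ : ℝ) ^ 2 * m' := by
    intro u hu
    have hu' : (u 0 : ℝ) ^ 2 + u 0 * u 1 + (u 1 : ℝ) ^ 2 = 1 := by exact_mod_cast hu
    rw [hQ, hu', mul_one, h10]
  have k1 := hX.kzu hmin0 hmin' hB hBm hCm (u := ![1, 0]) (j := 0) rfl (hQ3 _ (by simp))
  have k2 := hX.kzu hmin0 hmin' hB hBm hCm (u := ![0, 1]) (j := 1) rfl (hQ3 _ (by simp))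
  have k3 := hX.kzu hmin0 hmin' hB hBm hCm (u := ![-1, 1]) (j := 1) rfl (hQ3 _ (by simp))
  have nocase : ¬ (9 * m' = 8 * m₀ ^ 2) := by
    intro h9'
    have hno : ¬ (4 * m' = 3 * m₀ ^ 2) := by
      intro h4'
      nlinarith
    rcases k1 with k1 | k1
    · exact hno k1.1
    rcases k2 with k2 | k2
    · exact hno k2.1
    rcases k3 with k3 | k3
    · exact hno k3.1
    obtain ⟨-, y1, k1⟩ := k1
    obtain ⟨-, y2, k2⟩ := k2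
    obtain ⟨-, y3, k3⟩ := k3
    rw [Fin.sum_univ_two] at k1 k2 k3
    simp at k1 k2 k3
    have : m' * (2 * (y3 - y2 + y1)) = m' * 1 := by linear_combination k3 - k2 + k1
    have := mul_left_cancel₀ pm'.ne' this
    omega
  rcases k1 with ⟨h4', ⟨x₁, hx₁⟩, y, x, hy, hx'⟩ | k1
  swap
  · exact absurd k1.1 nocase
  rw [Fin.sum_univ_two] at hy hx'
  have hC0 : sch B 0 0 = m' := hCm
  have hC : m₀ * B 1 1 - B 0 1 * B 0 1 = m' := by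
    rw [← hC0, ← hBm]
    rfl
  have hDD : m' * (m₀ * B 2 2 - B 0 2 * B 0 2) -
      (m₀ * B 1 2 - B 0 1 * B 0 2) * (m₀ * B 1 2 - B 0 1 * B 0 2) = d := by
    rw [← d00]
    have e1 : sch (sch B) 0 0 = sch B 0 0 * sch B 1 1 - sch B 0 1 * sch B 0 1 := rfl
    have e2 : sch B 1 1 = B 0 0 * B 2 2 - B 0 2 * B 0 2 := rfl
    have e3 : sch B 0 1 = B 0 0 * B 1 2 - B 0 1 * B 0 2 := rfl
    rw [e1, e2, e3, hC0, hBm]
  have e3 : sch B 0 (Fin.succ 0) = m₀ * B 1 2 - B 0 1 * B 0 2 := by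
    rw [← hBm]
    rfl
  have e4 : B 0 (Fin.succ (Fin.succ 0)) = B 0 2 := rfl
  simp only [Matrix.cons_val_zero, Matrix.cons_val_one, one_mul, zero_mul, add_zero] at hy hx'
  rw [e3] at hy
  rw [e4] at hx'
  obtain ⟨ε, hε, hε2, hyε⟩ : ∃ ε : ℤ, (ε = 1 ∨ ε = -1) ∧ ε ^ 2 = 1 ∧
      3 * (m' * y + (m₀ * B 1 2 - B 0 1 * B 0 2)) = ε * m' := by
    rcases hy with hy | hy
    · exact ⟨1, Or.inl rfl, by norm_num, by rw [hy]; ring⟩
    · exact ⟨-1, Or.inr rfl, by norm_num, by rw [hy]; ring⟩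
  obtain ⟨a1, a2, a3⟩ := arith pm pm' hC hDD h10' h4' hx₁ hx' hε2 hyε
  rw [← hm0m]
  rcases hε with rfl | rfl
  · obtain ⟨E, M, E00, E01, E02, E11, E12, E22⟩ := tr4 hX hB x₁ x y 1 isUnit_one
    rw [hBm] at E00 E01 E02 E11 E12 E22
    refine ⟨E, M, E00, ?_, ?_, ?_, ?_, ?_⟩
    · rw [E11]; linear_combination a1
    · rw [E22]; linear_combination a2
    · rw [E01]; linear_combination hx₁
    · rw [E02]; linear_combination hx'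
    · have : 2 * (2 * E 1 2) = 2 * m₀ := by rw [E12]; linear_combination a3
      exact mul_left_cancel₀ (by norm_num) this
  · obtain ⟨E, M, E00, E01, E02, E11, E12, E22⟩ := tr4 hX hB x₁ (-x + 1) (-y) (-1) isUnit_one.neg
    rw [hBm] at E00 E01 E02 E11 E12 E22
    refine ⟨E, M, E00, ?_, ?_, ?_, ?_, ?_⟩
    · rw [E11]; linear_combination a1
    · rw [E22]; linear_combination a2 - hx'
    · rw [E01]; linear_combination hx₁
    · rw [E02]; linear_combination -hx'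
    · have : 2 * (2 * E 1 2) = 2 * m₀ := by rw [E12]; linear_combination -a3 + 2 * hx₁
      exact mul_left_cancel₀ (by norm_num) this

end Pool.Agent.Results.MP_386e47_ag.SpecialCycles
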